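import Pool.Agent.Y566.ZM.Bfc

set_option autoImplicit false
set_option linter.unusedSectionVars false

/-! The dichotomy for ordered groups which are divisible modulo a convex subgroup separated by a
finite tuple. -/

namespace Pool.Agent.Y566.ZM

open Pool.Agent.Y566.ZG

open Set MeasureTheory
open Pool.Agent.H533R2.VO (RS RIso Dich lift)
open Pool.Agent.H899R2.VP (St PIso BF IsoOn BF_iff zipSet idOn labels few_base)
open Pool.Agent.TH783.TR

variable {n : ℕ}

theorem enc_cont : Continuous (enc : XS n → RS bn) := by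
  refine continuous_pi fun i => continuous_pi fun t => ?_
  match i, t with
  | 0, t =>
    have h : Continuous fun x : XS n => x.1 (t (0 : Fin 2)) (t (1 : Fin 2)) :=
      (continuous_apply _).comp ((continuous_apply _).comp continuous_fst)
    exact h
  | 1, t =>
    have h : Continuous fun x : XS n => x.2.1 (t (0 : Fin 3)) (t (1 : Fin 3)) :=
      (continuous_apply _).comp ((continuous_apply _).comp (continuous_fst.comp continuous_snd))
    exact (continuous_of_discreteTopology
      (f := fun k : ℕ => (decide (k = t (2 : Fin 3)) : Bool))).comp h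
  | i + 2, t =>
    by_cases hi : i < n
    · have h : Continuous fun x : XS n => x.2.2 ⟨i, hi⟩ :=
        (continuous_apply _).comp (continuous_snd.comp continuous_snd)
      have h2 := (continuous_of_discreteTopology
        (f := fun k : ℕ => (decide (k = t (0 : Fin 1)) : Bool))).comp h
      convert h2 using 1
      funext x
      show decide (∃ h : i < n, x.2.2 ⟨i, h⟩ = t (0 : Fin 1)) = decide _
      rw [decide_eq_decide]
      exact ⟨fun ⟨_, h⟩ => h, fun h => ⟨hi, h⟩⟩
    · have h2 : (fun x : XS n => enc x (i + 2) t) = fun _ => false := by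
        funext x
        show decide (∃ h : i < n, x.2.2 ⟨i, h⟩ = t (0 : Fin 1)) = false
        rw [decide_eq_false_iff_not]
        exact fun ⟨h, _⟩ => hi h
      rw [h2]
      exact continuous_const

theorem cont_of_enc {g : (ℕ → Bool) → RS bn} (hg1 : Continuous g) {g' : (ℕ → Bool) → XS n}
    (hg'2 : ∀ c, enc (g' c) = g c) : Continuous g' := by
  have hco : ∀ i t, Continuous fun c => g c i t := fun i t =>
    (continuous_apply t).comp ((continuous_apply i).comp hg1)
  have e1 : ∀ c m k, (g' c).1 m k = g c 0 (![m, k] : Fin 2 → ℕ) := by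
    intro c m k
    rw [← hg'2]
    rfl
  have e2 : ∀ c m k l, (g' c).2.1 m k = l ↔ g c 1 (![m, k, l] : Fin 3 → ℕ) = true := by
    intro c m k l
    rw [← hg'2]
    show _ ↔ decide _ = true
    rw [decide_eq_true_iff]
    exact Iff.rfl
  have e3 : ∀ c (i : Fin n) l, (g' c).2.2 i = l ↔ g c (i.1 + 2) (fun _ : Fin 1 => l) = true := by
    intro c i l
    rw [← hg'2]
    show _ ↔ decide _ = true
    rw [decide_eq_true_iff]
    exact ⟨fun h => ⟨i.2, h⟩, fun ⟨_, h⟩ => h⟩
  have cdisc : ∀ Φ : (ℕ → Bool) → ℕ, (∀ l, IsOpen {c | Φ c = l}) → Continuous Φ := by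
    intro Φ hΦ
    exact continuous_discrete_rng.2 hΦ
  refine Continuous.prodMk ?_ (Continuous.prodMk ?_ ?_)
  · refine continuous_pi fun m => continuous_pi fun k => ?_
    simp only [e1]
    exact hco 0 _
  · refine continuous_pi fun m => continuous_pi fun k => ?_
    refine cdisc _ fun l => ?_
    simp only [e2]
    exact (isOpen_discrete {true}).preimage (hco 1 _)
  · refine continuous_pi fun i => ?_
    refine cdisc _ fun l => ?_
    simp only [e3]
    exact (isOpen_discrete {true}).preimage (hco (i.1 + 2) _)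

/-- The structure without constants. -/
def fg (y : XS n) : XS 0 := (y.1, y.2.1, Fin.elim0)

theorem fg_cont : Continuous (fg : XS n → XS 0) :=
  Continuous.prodMk continuous_fst (Continuous.prodMk (continuous_fst.comp continuous_snd)
    continuous_const)

theorem fg_meas : Measurable (fg : XS n → XS 0) :=
  Measurable.prodMk measurable_fst (Measurable.prodMk (measurable_fst.comp measurable_snd)
    measurable_const)

theorem fg_iso {y y' : XS n} (h : XIso y y') : XIso (fg y) (fg y') := by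
  obtain ⟨τ, h1, h2, -⟩ := h
  exact ⟨τ, h1, h2, fun i => i.elim0⟩

/-- The codes of the class. -/
def Kd (B : Set (XS 0)) : Set (St bn) := {M | M.1 = (fun _ _ => false) ∧ M.2 ∈ enc '' B}

theorem Kd_meas {B : Set (XS 0)} (hB : MeasurableSet B) : MeasurableSet (Kd B) := by
  refine MeasurableSet.inter ?_ (measurable_snd
    (hB.image_of_measurable_injOn enc_meas (fun _ _ _ _ h => enc_inj h)))
  exact (isClosed_eq continuous_fst continuous_const).measurableSet

theorem mem_Kd {B : Set (XS 0)} {x : XS 0} (hx : x ∈ B) : lift (enc x) ∈ Kd B :=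
  ⟨rfl, x, hx, rfl⟩

theorem Kd_few {B : Set (XS 0)} (few : ¬ ∃ g : (ℕ → Bool) → XS 0, Continuous g ∧ (∀ c, g c ∈ B) ∧
      ∀ c d, XIso (g c) (g d) → c = d) :
    ¬ ∃ g : (ℕ → Bool) → St bn, Continuous g ∧ (∀ c, g c ∈ Kd B) ∧
      ∀ c d, IsoOn (g c) (g d) univ univ ∅ → c = d := by
  rintro ⟨g, h1, h2, h3⟩
  choose g' hg'1 hg'2 using fun c => (h2 c).2
  refine few ⟨g', cont_of_enc (continuous_snd.comp h1) hg'2, hg'1, fun c d hcd => h3 c d ?_⟩
  have hl : ∀ c, g c = lift (enc (g' c)) := fun c => Prod.ext (h2 c).1 (hg'2 c).symm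
  rw [hl c, hl d]
  exact riso_iff.1 (enc_iso.2 hcd)

theorem iso_of_over {y y' : XS n} (hs : y.2.2 = y'.2.2)
    (h : IsoOn (lift (enc (fg y))) (lift (enc (fg y'))) univ univ (idOn (range y.2.2))) :
    XIso y y' := by
  obtain ⟨σ, h1, h2⟩ := h.exists_equiv
  refine ⟨σ, fun m k => ?_, fun m k => ?_, fun i => ?_⟩
  · exact (piso_lt h2 (u := (m, σ m)) (v := (k, σ k)) rfl rfl).symm
  · exact (piso_ad h2 (u := (m, σ m)) (v := (k, σ k)) (w := (y.2.1 m k, σ (y.2.1 m k)))
      rfl rfl rfl).1 rfl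
  · have h3 := h1 (y.2.2 i, y.2.2 i) ⟨rfl, i, rfl⟩
    rw [← hs]
    exact h3.symm

/-- There is no perfect set of pointed structures if there is none of structures. -/
theorem no_pt {B : Set (XS 0)} (hB : MeasurableSet B)
    (few : ¬ ∃ g : (ℕ → Bool) → XS 0, Continuous g ∧ (∀ c, g c ∈ B) ∧
      ∀ c d, XIso (g c) (g d) → c = d)
    (g : (ℕ → Bool) → XS n) (hg : Continuous g) (hgB : ∀ c, fg (g c) ∈ B)
    (hgi : ∀ c d, XIso (g c) (g d) → c = d) : False := by
  classical
  have hs : Continuous fun c => (g c).2.2 := continuous_snd.comp (continuous_snd.comp hg)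
  set s := (g fun _ => false).2.2 with hsd
  have hU : IsOpen {c | (g c).2.2 = s} := by
    have h1 : {c | (g c).2.2 = s} = ⋂ i, {c | (g c).2.2 i = s i} := by
      ext c
      simp only [mem_setOf_eq, mem_iInter]
      exact funext_iff
    rw [h1]
    refine isOpen_iInter_of_finite fun i => ?_
    exact (isOpen_discrete {s i}).preimage ((continuous_apply i).comp hs)
  obtain ⟨N, hN⟩ : ∃ N : ℕ, ∀ c : ℕ → Bool, (∀ i < N, c i = false) → (g c).2.2 = s := by
    have h1 : {c | (g c).2.2 = s} ∈ nhds (fun _ => false : ℕ → Bool) := hU.mem_nhds rfl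
    rw [nhds_pi, Filter.mem_pi] at h1
    obtain ⟨I, hI, t, ht1, ht2⟩ := h1
    refine ⟨hI.toFinset.sup id + 1, fun c hc => ht2 fun i hi => ?_⟩
    rw [hc i (Nat.lt_succ_of_le (Finset.le_sup (f := id) (hI.mem_toFinset.2 hi)))]
    exact mem_of_mem_nhds (ht1 i)
  set sh : (ℕ → Bool) → (ℕ → Bool) := fun c i => if i < N then false else c (i - N) with hsh
  have hshc : Continuous sh := by
    refine continuous_pi fun i => ?_
    by_cases hi : i < N
    · simp only [hsh, if_pos hi]
      exact continuous_const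
    · simp only [hsh, if_neg hi]
      exact continuous_apply _
  have hshs : ∀ c, (g (sh c)).2.2 = s := by
    intro c
    refine hN _ fun i hi => ?_
    simp only [hsh, if_pos hi]
  have hshi : ∀ c d, sh c = sh d → c = d := by
    intro c d h
    funext i
    have := congrFun h (i + N)
    simp only [hsh, if_neg (not_lt.2 (Nat.le_add_left N i)), Nat.add_sub_cancel] at this
    exact this
  refine few_base (Kd_meas hB) (Kd_few few) (finite_range s)
    (fun c => lift (enc (fg (g (sh c))))) ?_ (fun c => mem_Kd (hgB _)) ?_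
  · exact Continuous.prodMk continuous_const
      (enc_cont.comp (fg_cont.comp (hg.comp hshc)))
  · intro c d h
    refine hshi _ _ (hgi _ _ (iso_of_over ?_ ?_))
    · rw [hshs, hshs]
    · rw [hshs]
      exact h

/-- The tuple is good. -/
def Pg (x : XS 0) (s : Fin (n + 1) → ℕ) : Prop := ∃ (G : Type) (_ : AddCommGroup G) (_ : LinearOrder G)
  (_ : IsOrderedAddMonoid G) (e : ℕ ≃ G), Rep x.1 x.2.1 e ∧ Gd (fun i => e (s i))

theorem om2 : Order.succ (Order.succ Ordinal.omega0) < Ordinal.omega (1 : Ordinal.{0}) := by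
  have h0 : Ordinal.omega0 < Ordinal.omega (1 : Ordinal.{0}) := by
    rw [← Ordinal.omega_zero]
    exact Ordinal.omega_lt_omega.2 zero_lt_one
  have hl : Order.IsSuccLimit (Ordinal.omega (1 : Ordinal.{0})) := Cardinal.isSuccLimit_omega 1
  exact hl.succ_lt (hl.succ_lt h0)

theorem zip_ofFn (s s' : Fin n → ℕ) :
    zipSet (List.ofFn s) (List.ofFn s') = range fun i => (s i, s' i) := by
  ext u
  unfold zipSet
  simp only [mem_setOf_eq, mem_range]
  rw [List.mem_iff_getElem]
  constructor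
  · rintro ⟨i, hi, rfl⟩
    have hi' : i < n := by simpa using hi
    exact ⟨⟨i, hi'⟩, by simp⟩
  · rintro ⟨i, rfl⟩
    exact ⟨i.1, by simp, by simp⟩

/-- The main theorem. -/
theorem main_xs (B : Set (XS 0)) (hB : MeasurableSet B)
    (hBi : ∀ x ∈ B, ∀ x', XIso x x' → x' ∈ B)
    (hBG : ∀ x ∈ B, ∃ (n : ℕ) (s : Fin (n + 1) → ℕ), Pg x s) : XDich B := by
  classical
  by_cases few : ∃ g : (ℕ → Bool) → XS 0, Continuous g ∧ (∀ c, g c ∈ B) ∧
      ∀ c d, XIso (g c) (g d) → c = d
  · exact Or.inr few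
  left
  obtain ⟨lab, hlab⟩ := labels (Kd_meas hB) (Kd_few few) _ om2
  have main : ∀ n : ℕ, ∀ sf : XS 0 → (Fin (n + 1) → ℕ), ∀ v : ℕ, ∃ f : ℕ → XS 0, ∀ x ∈ B,
      Pg x (sf x) → lab (lift (enc x)) (List.ofFn (sf x)) = v → ∃ m, XIso (f m) x := by
    intro n sf v
    by_cases hex : ∃ x ∈ B, Pg x (sf x) ∧ lab (lift (enc x)) (List.ofFn (sf x)) = v
    · obtain ⟨x₀, hx₀, ⟨G, i1, i2, i3, e, he, hG⟩, hv⟩ := hex
      have hGc : Countable G := e.symm.injective.countable
      have hKc : ∀ x ∈ B, Pg x (sf x) → lab (lift (enc x)) (List.ofFn (sf x)) = v →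
          ((x.1, x.2.1, sf x) : XS (n + 1)) ∈
            (Kc (sH fun i => e (sf x₀ i)) (H1 fun i => e (sf x₀ i)) : Set (XS (n + 1))) := by
        rintro x hx ⟨G', j1, j2, j3, e', he', hG'⟩ hv'
        have h1 := hlab _ (mem_Kd hx₀) _ (mem_Kd hx) (List.ofFn (sf x₀)) (List.ofFn (sf x))
          (by simp) (hv.trans hv'.symm)
        rw [zip_ofFn] at h1
        obtain ⟨ι, hι⟩ := bf_em he he' hG' h1
        exact mem_Kc.2 ⟨G', j1, j2, j3, e', ι, he', hι⟩
      rcases fam_dich hG.sh (fg ⁻¹' B) (fg_meas hB)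
        (fun y hy y' h => hBi _ hy _ (fg_iso h)) with ⟨f, hf⟩ | ⟨g, hg1, hg2, hg3⟩
      · refine ⟨fun m => fg (f m), fun x hx h1 h2 => ?_⟩
        have hxe : fg ((x.1, x.2.1, sf x) : XS (n + 1)) = x :=
          Prod.ext rfl (Prod.ext rfl (funext fun i => i.elim0))
        obtain ⟨m, hm⟩ := hf (x.1, x.2.1, sf x) ⟨by
          show fg _ ∈ B
          rw [hxe]
          exact hx, hKc x hx h1 h2⟩
        refine ⟨m, ?_⟩
        have h3 := fg_iso hm
        rw [hxe] at h3
        exact h3
      · exact (no_pt hB few g hg1 (fun c => (hg2 c).1) hg3).elim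
    · exact ⟨fun _ => (fun _ _ => false, fun _ _ => 0, fun _ => 0),
        fun x hx h1 h2 => absurd ⟨x, hx, h1, h2⟩ hex⟩
  have hsf : ∀ (n : ℕ) (x : XS 0), ∃ s : Fin (n + 1) → ℕ,
      (∃ s' : Fin (n + 1) → ℕ, Pg x s') → Pg x s := by
    intro n x
    by_cases h : ∃ s' : Fin (n + 1) → ℕ, Pg x s'
    · obtain ⟨s', h'⟩ := h
      exact ⟨s', fun _ => h'⟩
    · exact ⟨fun _ => 0, fun h' => absurd h' h⟩
  choose sf hsf using hsf
  choose F hF using fun n v => main n (sf n) v
  obtain ⟨dec, hdec⟩ := exists_surjective_nat (ℕ × ℕ × ℕ)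
  refine ⟨fun k => F (dec k).1 (dec k).2.1 (dec k).2.2, fun x hx => ?_⟩
  obtain ⟨n, hn⟩ := hBG x hx
  obtain ⟨m, hm⟩ := hF n _ x hx (hsf n x hn) rfl
  obtain ⟨k, hk⟩ := hdec (n, lab (lift (enc x)) (List.ofFn (sf n x)), m)
  refine ⟨k, ?_⟩
  simp only [hk]
  exact hm

end Pool.Agent.Y566.ZM
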