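import Pool.Agent.Y566.ZM.Fam2

set_option autoImplicit false
set_option linter.unusedSectionVars false

/-! Back-and-forth equivalence of ordered groups and the convex subgroup of a tuple. -/

namespace Pool.Agent.Y566.ZM

open Pool.Agent.Y566.ZG

open Set MeasureTheory
open Pool.Agent.H533R2.VO (RS RIso Dich lift)
open Pool.Agent.H899R2.VP (St PIso BF IsoOn BF_iff zipSet idOn)
open Pool.Agent.TH783.TR

section bf

variable {x x' : XS 0} {p : Set (ℕ × ℕ)}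

theorem piso_lt (h : PIso (lift (enc x)) (lift (enc x')) p) {u v : ℕ × ℕ} (hu : u ∈ p)
    (hv : v ∈ p) : x.1 u.1 v.1 = x'.1 u.2 v.2 := by
  have h1 : enc x 0 (fun k => ((![u, v] : Fin 2 → ℕ × ℕ) k).1) =
      enc x' 0 (fun k => ((![u, v] : Fin 2 → ℕ × ℕ) k).2) :=
    (lift_piso.1 h).2 0 ![u, v] (by
      intro j
      change Fin 2 at j
      match j with
      | 0 => exact hu
      | 1 => exact hv)
  exact h1

theorem piso_ad (h : PIso (lift (enc x)) (lift (enc x')) p) {u v w : ℕ × ℕ} (hu : u ∈ p)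
    (hv : v ∈ p) (hw : w ∈ p) : x.2.1 u.1 v.1 = w.1 ↔ x'.2.1 u.2 v.2 = w.2 := by
  have h1 : decide (x.2.1 u.1 v.1 = w.1) = decide (x'.2.1 u.2 v.2 = w.2) :=
    (lift_piso.1 h).2 1 ![u, v, w] (by
      intro j
      change Fin 3 at j
      match j with
      | 0 => exact hu
      | 1 => exact hv
      | 2 => exact hw)
  exact decide_eq_decide.1 h1

/-- The pair is reached from `p`. -/
def Dp (x x' : XS 0) (p : Set (ℕ × ℕ)) (u : ℕ × ℕ) : Prop :=
  ∃ c : ℕ, ∀ q, p ⊆ q → ∀ k : ℕ,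
    BF (lift (enc x)) (lift (enc x')) univ univ ((k + c : ℕ) : Ordinal.{0}) q →
    BF (lift (enc x)) (lift (enc x')) univ univ (k : ℕ) (insert u q)

theorem Dp.mem {u : ℕ × ℕ} (hu : u ∈ p) : Dp x x' p u :=
  ⟨0, fun q hq k h => by rw [insert_eq_of_mem (hq hu)]; exact h⟩

variable {G G' : Type} [AddCommGroup G] [LinearOrder G] [IsOrderedAddMonoid G]
  [AddCommGroup G'] [LinearOrder G'] [IsOrderedAddMonoid G'] {e : ℕ ≃ G} {e' : ℕ ≃ G'}

theorem natlt (k : ℕ) : ((k : ℕ) : Ordinal.{0}) < ((k + 1 : ℕ) : Ordinal.{0}) := by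
  exact_mod_cast Nat.lt_succ_self k

theorem Dp.zero (he : Rep x.1 x.2.1 e) (he' : Rep x'.1 x'.2.1 e') :
    Dp x x' p (e.symm 0, e'.symm 0) := by
  refine ⟨1, fun q hq k h => ?_⟩
  obtain ⟨y, -, h2⟩ := h.forth (natlt k) (mem_univ (e.symm 0))
  have h3 := (piso_ad h2.piso (mem_insert _ _) (mem_insert _ _) (mem_insert _ _)).1
    (e.injective (by
      show e (x.2.1 (e.symm 0) (e.symm 0)) = e (e.symm 0)
      rw [he.add, e.apply_symm_apply, add_zero]))
  have h4 : e' y = 0 := by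
    have h5 := congrArg e' h3
    rw [he'.add] at h5
    exact add_eq_left.1 h5
  have h6 : y = e'.symm 0 := by rw [← h4, e'.symm_apply_apply]
  rw [← h6]
  exact h2

theorem Dp.add (he : Rep x.1 x.2.1 e) (he' : Rep x'.1 x'.2.1 e') {g h : G} {g' h' : G'}
    (h1 : Dp x x' p (e.symm g, e'.symm g')) (h2 : Dp x x' p (e.symm h, e'.symm h')) :
    Dp x x' p (e.symm (g + h), e'.symm (g' + h')) := by
  obtain ⟨c, hc⟩ := h1
  obtain ⟨c', hc'⟩ := h2
  refine ⟨c + c' + 1, fun q hq k hb => ?_⟩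
  have h3 := hc q hq (k + 1 + c') (by
    rw [show k + 1 + c' + c = k + (c + c' + 1) by ring]
    exact hb)
  have h4 := hc' _ (hq.trans (subset_insert _ _)) (k + 1) h3
  obtain ⟨y, -, h5⟩ := h4.forth (natlt k) (mem_univ (e.symm (g + h)))
  have h6 := (piso_ad h5.piso (u := (e.symm g, e'.symm g')) (v := (e.symm h, e'.symm h'))
    (w := (e.symm (g + h), y))
    (mem_insert_of_mem _ (mem_insert_of_mem _ (mem_insert _ _)))
    (mem_insert_of_mem _ (mem_insert _ _)) (mem_insert _ _)).1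
    (e.injective (by
      show e (x.2.1 (e.symm g) (e.symm h)) = e (e.symm (g + h))
      rw [he.add, e.apply_symm_apply, e.apply_symm_apply, e.apply_symm_apply]))
  have h7 : y = e'.symm (g' + h') := by
    refine e'.injective ?_
    rw [e'.apply_symm_apply]
    have h8 := congrArg e' h6
    rw [he'.add, e'.apply_symm_apply, e'.apply_symm_apply] at h8
    exact h8.symm
  rw [← h7]
  refine h5.subset ?_
  rintro u (hu | hu)
  · exact Or.inl hu
  · exact Or.inr (Or.inr (Or.inr hu))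

theorem Dp.neg (he : Rep x.1 x.2.1 e) (he' : Rep x'.1 x'.2.1 e') {g : G} {g' : G'}
    (h1 : Dp x x' p (e.symm g, e'.symm g')) :
    Dp x x' p (e.symm (-g), e'.symm (-g')) := by
  obtain ⟨c, hc⟩ := h1
  obtain ⟨c', hc'⟩ := Dp.zero (p := p) he he'
  refine ⟨c + c' + 1, fun q hq k hb => ?_⟩
  have h3 := hc q hq (k + 1 + c') (by
    rw [show k + 1 + c' + c = k + (c + c' + 1) by ring]
    exact hb)
  have h4 := hc' _ (hq.trans (subset_insert _ _)) (k + 1) h3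
  obtain ⟨y, -, h5⟩ := h4.forth (natlt k) (mem_univ (e.symm (-g)))
  have h6 := (piso_ad h5.piso (u := (e.symm g, e'.symm g')) (v := (e.symm (-g), y))
    (w := (e.symm 0, e'.symm 0))
    (mem_insert_of_mem _ (mem_insert_of_mem _ (mem_insert _ _)))
    (mem_insert _ _) (mem_insert_of_mem _ (mem_insert _ _))).1
    (e.injective (by
      show e (x.2.1 (e.symm g) (e.symm (-g))) = e (e.symm 0)
      rw [he.add, e.apply_symm_apply, e.apply_symm_apply, e.apply_symm_apply, add_neg_cancel]))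
  have h7 : y = e'.symm (-g') := by
    refine e'.injective ?_
    rw [e'.apply_symm_apply]
    have h8 := congrArg e' h6
    rw [he'.add, e'.apply_symm_apply, e'.apply_symm_apply] at h8
    exact (neg_eq_of_add_eq_zero_right h8).symm
  rw [← h7]
  refine h5.subset ?_
  rintro u (hu | hu)
  · exact Or.inl hu
  · exact Or.inr (Or.inr (Or.inr hu))

theorem clo_Dp (he : Rep x.1 x.2.1 e) (he' : Rep x'.1 x'.2.1 e') {v : G × G'}
    (hv : v ∈ AddSubgroup.closure ((fun u : ℕ × ℕ => (e u.1, e' u.2)) '' p)) :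
    Dp x x' p (e.symm v.1, e'.symm v.2) := by
  induction hv using AddSubgroup.closure_induction with
  | mem v hv =>
    obtain ⟨u, hu, rfl⟩ := hv
    simp only [Equiv.symm_apply_apply]
    exact Dp.mem hu
  | zero => exact Dp.zero he he'
  | add v w _ _ h1 h2 => exact h1.add he he' h2
  | neg v _ h1 => exact h1.neg he he'

theorem clo_pos (he : Rep x.1 x.2.1 e) (he' : Rep x'.1 x'.2.1 e')
    (hb : BF (lift (enc x)) (lift (enc x')) univ univ Ordinal.omega0 p) {v : G × G'}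
    (hv : v ∈ AddSubgroup.closure ((fun u : ℕ × ℕ => (e u.1, e' u.2)) '' p)) :
    0 < v.1 ↔ 0 < v.2 := by
  obtain ⟨c, hc⟩ := clo_Dp he he' hv
  obtain ⟨c', hc'⟩ := Dp.zero (p := p) he he'
  have h1 := hc p subset_rfl (0 + c') (hb.mono (Ordinal.natCast_lt_omega0 _).le)
  have h2 := hc' _ (subset_insert _ _) 0 h1
  have h3 := piso_lt h2.piso (u := (e.symm 0, e'.symm 0)) (v := (e.symm v.1, e'.symm v.2))
    (mem_insert _ _) (mem_insert_of_mem _ (mem_insert _ _))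
  have h4 := he.lt (e.symm 0) (e.symm v.1)
  have h5 := he'.lt (e'.symm 0) (e'.symm v.2)
  rw [e.apply_symm_apply, e.apply_symm_apply] at h4
  rw [e'.apply_symm_apply, e'.apply_symm_apply] at h5
  rw [← h4, ← h5, h3]

end bf

section ty

variable {G G' : Type} [AddCommGroup G] [LinearOrder G] [IsOrderedAddMonoid G]
  [AddCommGroup G'] [LinearOrder G'] [IsOrderedAddMonoid G'] {n : ℕ}

/-- The convex subgroup generated by an element. -/
def Hu (u : G) : AddSubgroup G where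
  carrier := {g | ∃ N : ℕ, |g| ≤ N • |u|}
  zero_mem' := ⟨0, by simp⟩
  add_mem' := by
    rintro a b ⟨N, hN⟩ ⟨M, hM⟩
    refine ⟨N + M, (abs_add_le _ _).trans ?_⟩
    rw [add_nsmul]
    exact add_le_add hN hM
  neg_mem' := by
    rintro a ⟨N, hN⟩
    exact ⟨N, by rw [abs_neg]; exact hN⟩

theorem mem_Hu {u g : G} : g ∈ Hu u ↔ ∃ N : ℕ, |g| ≤ N • |u| := Iff.rfl

theorem Hu_conv {u g h : G} (hh : h ∈ Hu u) (hg : |g| ≤ |h|) : g ∈ Hu u := by
  obtain ⟨N, hN⟩ := hh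
  exact ⟨N, hg.trans hN⟩

/-- The elements which depend on the tuple `s` modulo the convex subgroup generated by `s 0`. -/
def Hp (s : Fin (n + 1) → G) : AddSubgroup G where
  carrier := {g | ∃ (N : ℕ) (c : Fin (n + 1) → ℤ), N ≠ 0 ∧ N • g - ∑ i, c i • s i ∈ Hu (s 0)}
  zero_mem' := ⟨1, 0, one_ne_zero, by
    have : 1 • (0 : G) - ∑ i, (0 : Fin (n + 1) → ℤ) i • s i = 0 := by simp
    rw [this]
    exact (Hu _).zero_mem⟩
  add_mem' := by
    rintro a b ⟨N, c, hN, h1⟩ ⟨M, d, hM, h2⟩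
    refine ⟨N * M, fun i => M * c i + N * d i, mul_ne_zero hN hM, ?_⟩
    have : (N * M) • (a + b) - ∑ i, ((M : ℤ) * c i + N * d i) • s i =
        M • (N • a - ∑ i, c i • s i) + N • (M • b - ∑ i, d i • s i) := by
      simp only [add_smul, mul_smul, Finset.sum_add_distrib, nsmul_sub, nsmul_add, natCast_zsmul,
        ← Finset.smul_sum]
      rw [smul_comm M N a]
      abel
    rw [this]
    exact (Hu _).add_mem ((Hu _).nsmul_mem h1 M) ((Hu _).nsmul_mem h2 N)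
  neg_mem' := by
    rintro a ⟨N, c, hN, h1⟩
    refine ⟨N, fun i => - c i, hN, ?_⟩
    have : N • (-a) - ∑ i, (- c i) • s i = - (N • a - ∑ i, c i • s i) := by
      simp only [neg_smul, Finset.sum_neg_distrib, neg_nsmul]
      abel
    rw [this]
    exact (Hu _).neg_mem h1

theorem mem_Hp {s : Fin (n + 1) → G} {g : G} : g ∈ Hp s ↔
    ∃ (N : ℕ) (c : Fin (n + 1) → ℤ), N ≠ 0 ∧ N • g - ∑ i, c i • s i ∈ Hu (s 0) := Iff.rfl

theorem sum_mem_Hp (s : Fin (n + 1) → G) (c : Fin (n + 1) → ℤ) : ∑ i, c i • s i ∈ Hp s :=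
  ⟨1, c, one_ne_zero, by rw [one_nsmul, sub_self]; exact (Hu _).zero_mem⟩

theorem sum_single (s : Fin (n + 1) → G) (i : Fin (n + 1)) (z : ℤ) :
    ∑ j, (Pi.single i z : Fin (n + 1) → ℤ) j • s j = z • s i := by
  rw [Finset.sum_eq_single i]
  · rw [Pi.single_eq_same]
  · intro j _ hj
    rw [Pi.single_eq_of_ne hj, zero_smul]
  · intro h
    exact absurd (Finset.mem_univ i) h

theorem s_mem_Hp (s : Fin (n + 1) → G) (i : Fin (n + 1)) : s i ∈ Hp s := by
  have := sum_mem_Hp s (Pi.single i 1)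
  rw [sum_single, one_smul] at this
  exact this

theorem Hu_le_Hp (s : Fin (n + 1) → G) {g : G} (hg : g ∈ Hu (s 0)) : g ∈ Hp s :=
  ⟨1, 0, one_ne_zero, by
    have : 1 • g - ∑ i, (0 : Fin (n + 1) → ℤ) i • s i = g := by simp
    rw [this]
    exact hg⟩

theorem Hp_pure {s : Fin (n + 1) → G} {g : G} {N : ℕ} (hN : N ≠ 0) (h : N • g ∈ Hp s) :
    g ∈ Hp s := by
  obtain ⟨M, c, hM, h1⟩ := h
  refine ⟨M * N, c, mul_ne_zero hM hN, ?_⟩
  rw [mul_smul]
  exact h1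

/-- The condition on a tuple: the group is divisible modulo the subgroup of the elements which depend
on the tuple modulo the convex subgroup generated by `s 0`, and in this convex subgroup the cuts in
the divisible hull of the tuple separate points. -/
structure Gd (s : Fin (n + 1) → G) : Prop where
  div : ∀ (g : G) (N : ℕ), N ≠ 0 → ∃ g' w, w ∈ Hp s ∧ g = N • g' + w
  sep : ∀ a ∈ Hu (s 0), ∀ b ∈ Hu (s 0), a < b → ∃ (N : ℕ) (c : Fin (n + 1) → ℤ), N ≠ 0 ∧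
    N • a ≤ ∑ i, c i • s i ∧ ∑ i, c i • s i < N • b

/-- A subgroup of the product which preserves the order. -/
structure TS2 (s : Fin (n + 1) → G) (s' : Fin (n + 1) → G') (R : AddSubgroup (G × G')) : Prop where
  pos : ∀ v ∈ R, (0 < v.1 ↔ 0 < v.2)
  s : ∀ i, (s i, s' i) ∈ R

variable {s : Fin (n + 1) → G} {s' : Fin (n + 1) → G'} {R : AddSubgroup (G × G')}

theorem TS2.lt (h : TS2 s s' R) {g h1 : G} {g' h1' : G'} (hg : (g, g') ∈ R) (hh : (h1, h1') ∈ R) :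
    g < h1 ↔ g' < h1' := by
  have := h.pos _ (R.sub_mem hh hg)
  rw [← sub_pos, ← sub_pos (a := h1')]
  exact this

theorem TS2.abs (h : TS2 s s' R) {g : G} {g' : G'} (hg : (g, g') ∈ R) : (|g|, |g'|) ∈ R := by
  have h0 : ((0 : G), (0 : G')) ∈ R := R.zero_mem
  rcases lt_or_ge g 0 with h1 | h1
  · have h2 := (h.lt hg h0).1 h1
    rw [abs_of_neg h1, abs_of_neg h2]
    exact R.neg_mem hg
  · have h2 : 0 ≤ g' := by
      rw [← not_lt] at h1 ⊢
      exact fun h3 => h1 ((h.lt hg h0).2 h3)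
    rw [abs_of_nonneg h1, abs_of_nonneg h2]
    exact hg

theorem TS2.sum (h : TS2 s s' R) (c : Fin (n + 1) → ℤ) :
    (∑ i, c i • s i, ∑ i, c i • s' i) ∈ R := by
  have h1 : (∑ i, c i • s i, ∑ i, c i • s' i) = ∑ i, c i • (s i, s' i) := by
    rw [Prod.ext_iff]
    constructor
    · rw [Prod.fst_sum]
      rfl
    · rw [Prod.snd_sum]
      rfl
  rw [h1]
  exact R.sum_mem fun i _ => R.zsmul_mem (h.s i) _

theorem TS2.mem_Hu (h : TS2 s s' R) {g : G} {g' : G'} (hg : (g, g') ∈ R) :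
    g ∈ Hu (s 0) ↔ g' ∈ Hu (s' 0) := by
  rw [ZM.mem_Hu, ZM.mem_Hu]
  refine exists_congr fun N => ?_
  rw [← not_lt, ← not_lt, not_iff_not]
  exact h.lt (R.nsmul_mem (h.abs (h.s 0)) N) (h.abs hg)

theorem TS2.dif (h : TS2 s s' R) {g : G} {g' : G'} (hg : (g, g') ∈ R) (N : ℕ)
    (c : Fin (n + 1) → ℤ) :
    (N • g - ∑ i, c i • s i, N • g' - ∑ i, c i • s' i) ∈ R :=
  R.sub_mem (R.nsmul_mem hg N) (h.sum c)

theorem TS2.mem_Hp (h : TS2 s s' R) {g : G} {g' : G'} (hg : (g, g') ∈ R) :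
    g ∈ Hp s ↔ g' ∈ Hp s' := by
  rw [ZM.mem_Hp, ZM.mem_Hp]
  refine exists_congr fun N => exists_congr fun c => and_congr_right fun _ => ?_
  exact h.mem_Hu (h.dif hg N c)

/-- Equivalence of cuts. -/
def Ev (s : Fin (n + 1) → G) (s' : Fin (n + 1) → G') (g : G) (g' : G') : Prop :=
  ∀ (N : ℕ) (c : Fin (n + 1) → ℤ), (∑ i, c i • s i < N • g ↔ ∑ i, c i • s' i < N • g')

theorem TS2.ev (h : TS2 s s' R) {g : G} {g' : G'} (hg : (g, g') ∈ R) : Ev s s' g g' :=
  fun N c => h.lt (h.sum c) (R.nsmul_mem hg N)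

theorem Ev.unique (hs' : Gd s') {g : G} {g' h' : G'} (h1 : Ev s s' g g') (h2 : Ev s s' g h')
    (hg : g' ∈ Hu (s' 0)) (hh : h' ∈ Hu (s' 0)) : g' = h' := by
  have key : ∀ {a b : G'}, Ev s s' g a → Ev s s' g b → a ∈ Hu (s' 0) → b ∈ Hu (s' 0) →
      ¬ a < b := by
    intro a b ha hb h3 h4 hab
    obtain ⟨N, c, -, h5, h6⟩ := hs'.sep a h3 b h4 hab
    exact absurd ((ha N c).1 ((hb N c).2 h6)) (not_lt.2 h5)
  exact le_antisymm (not_lt.1 (key h2 h1 hh hg)) (not_lt.1 (key h1 h2 hg hh))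

theorem rl_unique (hs' : Gd s') {R1 R2 : AddSubgroup (G × G')} (h1 : TS2 s s' R1)
    (h2 : TS2 s s' R2) {g : G} {g' h' : G'} (hg : g ∈ Hp s) (ha : (g, g') ∈ R1)
    (hb : (g, h') ∈ R2) : g' = h' := by
  obtain ⟨N, c, hN, h3⟩ := hg
  have h4 := h1.dif ha N c
  have h5 := h2.dif hb N c
  have h6 := Ev.unique hs' (h1.ev h4) (h2.ev h5) ((h1.mem_Hu h4).1 h3) ((h2.mem_Hu h5).1 h3)
  exact nsmul_right_injective hN (sub_left_injective h6)

/-- The tuple in the subgroup. -/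
def sH (s : Fin (n + 1) → G) : Fin (n + 1) → Hp s := fun i => ⟨s i, s_mem_Hp s i⟩

/-- The convex part. -/
def H1 (s : Fin (n + 1) → G) : AddSubgroup (Hp s) := (Hu (s 0)).addSubgroupOf (Hp s)

theorem mem_H1 {a : Hp s} : a ∈ H1 s ↔ (a : G) ∈ Hu (s 0) := AddSubgroup.mem_addSubgroupOf

theorem Gd.sh (hs : Gd s) : Sh (sH s) (H1 s) := by
  have h1 : ∀ c : Fin (n + 1) → ℤ, ((∑ i, c i • sH s i : Hp s) : G) = ∑ i, c i • s i := by
    intro c
    rw [AddSubgroup.val_finset_sum]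
    rfl
  refine ⟨fun w => ?_, fun w hw w' hw' => ?_, fun a ha b hb hab => ?_, fun w hw => ?_⟩
  · obtain ⟨N, c, hN, h2⟩ := w.2
    refine ⟨N, c, hN, ?_⟩
    rw [mem_H1, AddSubgroup.coe_sub, h1]
    exact h2
  · rw [mem_H1] at hw ⊢
    exact Hu_conv hw hw'
  · obtain ⟨N, c, hN, h2, h3⟩ := hs.sep a (mem_H1.1 ha) b (mem_H1.1 hb) hab
    refine ⟨N, c, hN, ?_, ?_⟩
    · show ((N • a : Hp s) : G) ≤ ((∑ i, c i • sH s i : Hp s) : G)
      rw [h1]
      exact h2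
    · show ((∑ i, c i • sH s i : Hp s) : G) < ((N • b : Hp s) : G)
      rw [h1]
      exact h3
  · rw [mem_H1] at hw
    obtain ⟨N, hN⟩ := hw
    obtain ⟨c, hc⟩ : ∃ c : Fin (n + 1) → ℤ, ∑ i, c i • s i = N • |s 0| := by
      rcases abs_choice (s 0) with h2 | h2
      · refine ⟨Pi.single 0 N, ?_⟩
        rw [sum_single, h2, natCast_zsmul]
      · refine ⟨Pi.single 0 (-N), ?_⟩
        rw [sum_single, h2, neg_smul, natCast_zsmul, neg_nsmul]
    refine ⟨c, ?_, ?_⟩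
    · rw [mem_H1, h1, hc]
      exact (Hu _).nsmul_mem ⟨1, by rw [abs_abs, one_nsmul]⟩ N
    · show ((|w| : Hp s) : G) ≤ ((∑ i, c i • sH s i : Hp s) : G)
      rw [h1, hc]
      exact hN

/-- The subgroup embeds. -/
theorem em_of_TS2 (hs' : Gd s')
    (fw : ∀ g1 g2 : G, ∃ (g1' g2' : G') (R : AddSubgroup (G × G')), TS2 s s' R ∧
      (g1, g1') ∈ R ∧ (g2, g2') ∈ R)
    (bw : ∀ g' : G', ∃ (g : G) (R : AddSubgroup (G × G')), TS2 s s' R ∧ (g, g') ∈ R) :
    ∃ ι : Hp s →+ G', Em (sH s) (H1 s) s' ι := by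
  have h1 : ∀ a : Hp s, ∃ (g' : G') (R : AddSubgroup (G × G')), TS2 s s' R ∧
      ((a : G), g') ∈ R := by
    intro a
    obtain ⟨g1', g2', R, h1, h2, -⟩ := fw a a
    exact ⟨g1', R, h1, h2⟩
  choose φ Rφ hφ1 hφ2 using h1
  have key : ∀ (a : Hp s) (g' : G') (R : AddSubgroup (G × G')), TS2 s s' R →
      ((a : G), g') ∈ R → φ a = g' := fun a g' R h1 h2 =>
    rl_unique hs' (hφ1 a) h1 a.2 (hφ2 a) h2
  have hadd : ∀ a b, φ (a + b) = φ a + φ b := by
    intro a b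
    obtain ⟨g1', g2', R, h1, h2, h3⟩ := fw a b
    rw [key a g1' R h1 h2, key b g2' R h1 h3]
    exact key (a + b) _ R h1 (R.add_mem h2 h3)
  have hsur : ∀ g ∈ Hp s', ∃ a, φ a = g := by
    intro g hg
    obtain ⟨h, R, h2, h3⟩ := bw g
    exact ⟨⟨h, (h2.mem_Hp h3).2 hg⟩, key ⟨h, (h2.mem_Hp h3).2 hg⟩ g R h2 h3⟩
  have hφH : ∀ a, φ a ∈ Hp s' := fun a => ((hφ1 a).mem_Hp (hφ2 a)).1 a.2
  refine ⟨AddMonoidHom.mk' φ hadd, ?_, ?_, ?_, ?_, ?_⟩
  · intro a ha
    obtain ⟨g1', g2', R, h1, h2, -⟩ := fw a a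
    show 0 < φ a
    rw [key a g1' R h1 h2]
    exact (h1.pos _ h2).1 ha
  · intro i
    obtain ⟨g1', g2', R, h1, h2, -⟩ := fw 0 0
    exact key (sH s i) _ R h1 (h1.s i)
  · intro g a ha hg
    have h4 : φ a ∈ Hu (s' 0) := ((hφ1 a).mem_Hu (hφ2 a)).1 (mem_H1.1 ha)
    have h5 : g ∈ Hu (s' 0) := Hu_conv h4 hg
    obtain ⟨h, R, h2, h3⟩ := bw g
    have h6 : h ∈ Hu (s 0) := (h2.mem_Hu h3).2 h5
    exact ⟨⟨h, Hu_le_Hp s h6⟩, mem_H1.2 h6, key ⟨h, Hu_le_Hp s h6⟩ g R h2 h3⟩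
  · intro g N a hN hg
    refine hsur g (Hp_pure hN ?_)
    rw [hg]
    exact hφH a
  · intro g N hN
    obtain ⟨g', w, hw, h1⟩ := hs'.div g N hN
    obtain ⟨a, ha⟩ := hsur w hw
    refine ⟨g', a, ?_⟩
    show g = N • g' + φ a
    rw [ha, h1]

end ty

section comb

variable {x x' : XS 0} {G G' : Type} [AddCommGroup G] [LinearOrder G] [IsOrderedAddMonoid G]
  [AddCommGroup G'] [LinearOrder G'] [IsOrderedAddMonoid G'] {e : ℕ ≃ G} {e' : ℕ ≃ G'}
  {n : ℕ} {s s' : Fin (n + 1) → ℕ}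

theorem bf_em (he : Rep x.1 x.2.1 e) (he' : Rep x'.1 x'.2.1 e')
    (hs' : Gd (fun i => e' (s' i)))
    (hb : BF (lift (enc x)) (lift (enc x')) univ univ (Order.succ (Order.succ Ordinal.omega0))
      (range fun i => (s i, s' i))) :
    ∃ ι : Hp (fun i => e (s i)) →+ G',
      Em (sH (fun i => e (s i))) (H1 (fun i => e (s i))) (fun i => e' (s' i)) ι := by
  have hmk : ∀ p : Set (ℕ × ℕ), (range fun i => (s i, s' i)) ⊆ p →
      BF (lift (enc x)) (lift (enc x')) univ univ Ordinal.omega0 p →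
      ∃ R : AddSubgroup (G × G'), TS2 (fun i => e (s i)) (fun i => e' (s' i)) R ∧
        ∀ u ∈ p, (e u.1, e' u.2) ∈ R := by
    intro p hp h
    refine ⟨AddSubgroup.closure ((fun u : ℕ × ℕ => (e u.1, e' u.2)) '' p), ⟨?_, ?_⟩, ?_⟩
    · intro v hv
      exact clo_pos he he' h hv
    · intro i
      exact AddSubgroup.subset_closure ⟨(s i, s' i), hp ⟨i, rfl⟩, rfl⟩
    · intro u hu
      exact AddSubgroup.subset_closure ⟨u, hu, rfl⟩
  refine em_of_TS2 hs' ?_ ?_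
  · intro g1 g2
    obtain ⟨m1, -, h1⟩ := hb.forth (Order.lt_succ _) (mem_univ (e.symm g1))
    obtain ⟨m2, -, h2⟩ := h1.forth (Order.lt_succ _) (mem_univ (e.symm g2))
    obtain ⟨R, hR1, hR2⟩ := hmk _ ((subset_insert _ _).trans (subset_insert _ _)) h2
    refine ⟨e' m1, e' m2, R, hR1, ?_, ?_⟩
    · have := hR2 _ (mem_insert_of_mem _ (mem_insert _ _))
      simpa using this
    · have := hR2 _ (mem_insert _ _)
      simpa using this
  · intro g'
    obtain ⟨m1, -, h1⟩ := hb.back (Order.lt_succ _) (mem_univ (e'.symm g'))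
    obtain ⟨R, hR1, hR2⟩ := hmk _ (subset_insert _ _) (h1.mono (Order.le_succ _))
    refine ⟨e m1, R, hR1, ?_⟩
    have := hR2 _ (mem_insert _ _)
    simpa using this

end comb

end Pool.Agent.Y566.ZM
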