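import Pool.Agent.Y566.ZM.Cz2

set_option autoImplicit false
set_option linter.unusedSectionVars false

/-! Every marked index structure codes a pointed ordered group. -/

namespace Pool.Agent.Y566.ZM

open Pool.Agent.Y566.ZG

open Set

section embed

variable {E : Type} [AddCommGroup E] [Module ℚ E] {z : Z E}
  {V V' : Type} [AddCommGroup V] [LinearOrder V] [IsOrderedAddMonoid V] [Module ℚ V]
  [AddCommGroup V'] [LinearOrder V'] [IsOrderedAddMonoid V'] [Module ℚ V']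
  {R : V → ℕ → Prop} {R' : V' → ℕ → Prop}

theorem rq_abs (h : Rq z R) (hz : Z0 z) {v : V} {k : ℕ} (h1 : R v k) (h2 : z.2.1 k ≠ 0) :
    ∃ j, sm z k j ∧ z.2.1 j = |z.2.1 k| ∧ R |v| j := by
  rcases lt_or_gt_of_ne h2 with h3 | h3
  · obtain ⟨j, h4, h5, -, h6⟩ := h.toPR.smul hz h1 (-1)
    refine ⟨j, h4, ?_, ?_⟩
    · rw [abs_of_neg h3, h5]
      push_cast
      ring
    · rw [abs_of_neg (h.neg_of hz h1 h3)]
      rw [neg_smul, one_smul] at h6
      exact h6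
  · refine ⟨k, hz.refl k, (abs_of_pos h3).symm, ?_⟩
    rw [abs_of_pos (h.pos _ _ h1 h3)]
    exact h1

theorem rq_le (h : Rq z R) (hz : Z0 z) {v w : V} {k j : ℕ} (h1 : R v k) (h2 : z.2.1 k ≠ 0)
    (h3 : R w j) (h4 : z.2.1 j ≠ 0) (h5 : sm z k j ∨ z.1 k j = true) :
    ∃ N : ℕ, |w| ≤ N • |v| := by
  obtain ⟨k', h6, h7, h8⟩ := rq_abs h hz h1 h2
  obtain ⟨j', h9, h10, h11⟩ := rq_abs h hz h3 h4
  have h12 : 0 < |z.2.1 k| := abs_pos.2 h2
  rcases h5 with h5 | h5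
  · obtain ⟨N, hN⟩ := exists_nat_gt (|z.2.1 j| / |z.2.1 k|)
    rw [div_lt_iff₀ h12] at hN
    refine ⟨N, ?_⟩
    obtain ⟨l, -, h14, -, h15⟩ := h.toPR.comb hz h8 h11 (hz.trans h6.symm (hz.trans h5 h9)) N (-1)
    have h16 := h.pos _ _ h15 (by
      rw [h14, h7, h10]
      push_cast
      linarith)
    rw [Nat.cast_smul_eq_nsmul, neg_smul, one_smul, ← sub_eq_add_neg, sub_pos] at h16
    exact h16.le
  · refine ⟨1, ?_⟩
    have h13 : z.1 k' j' = true := hz.lt_left h6.symm (hz.lt_right h5 h9)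
    obtain ⟨i, h14, h15, -, h16⟩ := h.toPR.up hz h11 h13
    obtain ⟨l, -, h17, -, h18⟩ := h.toPR.comb hz h8 h16 h14 1 (-1)
    have h19 := h.pos _ _ h18 (by
      rw [h17, h15, h7, mul_zero, add_zero, Rat.cast_one, one_mul]
      exact h12)
    rw [one_smul, neg_smul, one_smul, ← sub_eq_add_neg, sub_pos] at h19
    rw [one_smul]
    exact h19.le

/-- One step backwards. -/
theorem stepD (hz : Z0 z) (h : Rq z R) (h' : Rq z R') (B : Submodule ℚ V')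
    (hB : ∀ v ∈ B, ∀ m, z.2.1 m ≠ 0 → R' v m → ∀ v' m', z.2.1 m' ≠ 0 → R' v' m' →
      (sm z m m' ∨ z.1 m m' = true) → v' ∈ B)
    (hcB : ∀ v ∈ B, ∀ m, R' v m → ∃ w, R w m)
    (P : Submodule ℚ (V × V')) [FiniteDimensional ℚ P] (hP : Tot z (R2 R R' 1) P) (g : V')
    (hg : g ∈ B) :
    ∃ P' : Submodule ℚ (V × V'), P ≤ P' ∧ FiniteDimensional ℚ P' ∧ Tot z (R2 R R' 1) P' ∧
      ∃ v, (v, g) ∈ P' := by
  by_cases hex : ∃ v, (v, g) ∈ P
  · exact ⟨P, le_rfl, inferInstance, hP, hex⟩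
  have hpr := pr2 hz h.toPR h'.toPR (ZIso.refl hz)
  obtain ⟨p, hp, m, h1, h2, h3⟩ := best hz h'.toPR hpr (LinearMap.snd ℚ V V')
    (fun _ _ h => h.2) P g (by
      intro p hp
      have h1 : g - p.2 ≠ 0 := by
        intro h2
        rw [sub_eq_zero] at h2
        exact hex ⟨p.1, by rw [h2]; exact hp⟩
      exact h'.tot _ h1)
  change R' (g - p.2) m at h2
  have hmem : g - p.2 ∈ B := by
    by_cases hp0 : p = 0
    · rw [hp0]
      simpa using hg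
    by_cases hg0 : g = 0
    · exact absurd ⟨0, by rw [hg0]; exact P.zero_mem⟩ hex
    obtain ⟨n, hn1, hn2⟩ := hP p hp hp0
    have hn2' : R' p.2 n := hn2.2
    obtain ⟨l, hl1, hl2⟩ := h'.tot g hg0
    rcases trich z n l with h4 | h4 | h4
    · exfalso
      obtain ⟨j, h5, h6, -, h8⟩ := h'.toPR.up hz hl2 h4
      obtain ⟨k, h9, h10, -, h12⟩ := h'.toPR.comb hz h8 hn2' h5.symm 1 (-1)
      rw [one_smul, neg_smul, one_smul, ← sub_eq_add_neg] at h12
      have h13 : z.2.1 k = - z.2.1 n := by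
        rw [h10, h6]
        push_cast
        ring
      have h14 : k = m := by
        rcases (h'.iff_of hz h2 h1 k).1 h12 with h15 | ⟨-, h15, -⟩
        · exact h15
        · rw [h13, neg_eq_zero] at h15
          exact absurd h15 hn1
      obtain ⟨n', a1, a2, -, a4⟩ := hpr.smul hz hn2 (-1)
      refine h3 _ (P.smul_mem (-1) hp) n' a4 ?_ ?_
      · rw [← h14]
        exact hz.trans h9.symm (hz.trans h5.symm a1)
      · rw [a2, ← h14, h13]
        push_cast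
        ring
    · exact B.sub_mem hg (hB g hg l hl1 hl2 p.2 n hn1 hn2' (Or.inl h4.symm))
    · exact B.sub_mem hg (hB g hg l hl1 hl2 p.2 n hn1 hn2' (Or.inr h4))
  obtain ⟨w, hw⟩ := hcB _ hmem m h2
  refine ⟨P ⊔ Submodule.span ℚ {(w, g - p.2)}, le_sup_left, inferInstance,
    join hz hpr hP (b := (w, g - p.2)) (m := m) ⟨hw, h2⟩ h1 h3, p.1 + w, ?_⟩
  refine Submodule.mem_sup.2 ⟨p, hp, (w, g - p.2), Submodule.mem_span_singleton_self _, ?_⟩
  ext
  · simp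
  · simp

/-- Embeddings which are onto a given convex part. -/
theorem embed (hz : Z0 z) (h : Rq z R) (h' : Rq z R') (hc : ∀ v m, R v m → ∃ v', R' v' m)
    (B : Submodule ℚ V')
    (hB : ∀ v ∈ B, ∀ m, z.2.1 m ≠ 0 → R' v m → ∀ v' m', z.2.1 m' ≠ 0 → R' v' m' →
      (sm z m m' ∨ z.1 m m' = true) → v' ∈ B)
    (hcB : ∀ v ∈ B, ∀ m, R' v m → ∃ w, R w m) [Countable V] [Countable V'] :
    ∃ θ : V → V', (∀ v w, θ (v + w) = θ v + θ w) ∧
      (∀ v, v ≠ 0 → ∀ m, (R v m ↔ R' (θ v) m)) ∧ ∀ g ∈ B, ∃ v, θ v = g := by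
  classical
  obtain ⟨e, he⟩ := exists_surjective_nat V
  obtain ⟨e', he'⟩ := exists_surjective_nat V'
  let St := {P : Submodule ℚ (V × V') // FiniteDimensional ℚ P ∧ Tot z (R2 R R' 1) P}
  have stp : ∀ (n : ℕ) (P : St), ∃ P' : St, P.1 ≤ P'.1 ∧ (∃ v', (e n, v') ∈ P'.1) ∧
      (e' n ∈ B → ∃ v, (v, e' n) ∈ P'.1) := by
    intro n P
    have := P.2.1
    obtain ⟨P1, h1, h2, h3, h4⟩ := step hz h h' (ZIso.refl hz) hc P.1 P.2.2 (e n)
    by_cases hb : e' n ∈ B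
    · obtain ⟨P2, h5, h6, h7, h8⟩ := stepD hz h h' B hB hcB P1 h3 (e' n) hb
      obtain ⟨v', h9⟩ := h4
      exact ⟨⟨P2, h6, h7⟩, h1.trans h5, ⟨v', h5 h9⟩, fun _ => h8⟩
    · exact ⟨⟨P1, h2, h3⟩, h1, h4, fun h9 => absurd h9 hb⟩
  choose nx hnx1 hnx2 hnx3 using stp
  obtain ⟨s, hs⟩ : ∃ s : ℕ → St, ∀ n, s (n + 1) = nx n (s n) :=
    ⟨fun n => Nat.rec ⟨⊥, inferInstance, tot_bot⟩ (fun n q => nx n q) n, fun _ => rfl⟩
  have hmono : Monotone (fun n => (s n).1) := by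
    apply monotone_nat_of_le_succ
    intro n
    rw [hs]
    exact hnx1 n (s n)
  have hf : ∀ v, ∃ v' n, (v, v') ∈ (s n).1 := by
    intro v
    obtain ⟨n, rfl⟩ := he v
    obtain ⟨v', h1⟩ := hnx2 n (s n)
    exact ⟨v', n + 1, by rw [hs]; exact h1⟩
  have hz1 : ∀ v' n, ((0 : V), v') ∈ (s n).1 → v' = 0 := by
    intro v' n hv
    by_contra hne
    obtain ⟨k, h1, h2, -⟩ := (s n).2.2 _ hv (fun h => hne (congrArg Prod.snd h))
    exact h.ne_zero hz h2 h1 rfl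
  have hfu : ∀ v v1 v2 n1 n2, (v, v1) ∈ (s n1).1 → (v, v2) ∈ (s n2).1 → v1 = v2 := by
    intro v v1 v2 n1 n2 h1 h2
    have h3 := hmono (le_max_left n1 n2) h1
    have h4 := hmono (le_max_right n1 n2) h2
    have h5 := Submodule.sub_mem _ h3 h4
    rw [Prod.mk_sub_mk, sub_self] at h5
    exact sub_eq_zero.1 (hz1 _ _ h5)
  choose f fn hf using hf
  refine ⟨f, ?_, ?_, ?_⟩
  · intro v w
    have h3 := hmono (le_max_left (fn v) (fn w)) (hf v)
    have h4 := hmono (le_max_right (fn v) (fn w)) (hf w)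
    exact hfu _ _ _ _ _ (hf (v + w)) (Submodule.add_mem _ h3 h4)
  · intro v hv m
    obtain ⟨k, h1, h2, h3⟩ := (s (fn v)).2.2 _ (hf v) (fun h => hv (congrArg Prod.fst h))
    have h3' : R' (f v) k := h3
    rw [h.iff_of hz h2 h1, h'.iff_of hz h3' h1]
  · intro g hg
    obtain ⟨n, rfl⟩ := he' g
    obtain ⟨v, h1⟩ := hnx3 n (s n) hg
    rw [← hs] at h1
    exact ⟨v, hfu _ _ _ _ _ (hf v) h1⟩

end embed

variable {C : Type} [AddCommGroup C]
  {W : Type} [AddCommGroup W] [LinearOrder W] [IsOrderedAddMonoid W] [Module ℚ W]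
  {n : ℕ} {π : W →+ C} {cd : W → ℕ} {t : Fin n → W} {D : Submodule ℚ W} {y : Yc C}

/-- The bottom part. -/
def Vb {V : Type} [AddCommGroup V] [Module ℚ V] {R : V → ℕ → Prop} (cd : W → ℕ) (D : Submodule ℚ W)
    (y : Yc C) (hz : Z0 y.1) (hR : PR y.1 R) : Submodule ℚ V where
  carrier := {v | v = 0 ∨ ∃ w ∈ D, ∃ m, Mk cd y w m ∧ y.1.2.1 m ≠ 0 ∧ ∃ k, sm y.1 m k ∧ R v k}
  zero_mem' := Or.inl rfl
  add_mem' := by
    rintro v v' (rfl | ⟨w, hw, m, h1, h2, k, h3, h4⟩) (rfl | ⟨w', hw', m', h1', h2', k', h3', h4'⟩)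
    · left
      rw [add_zero]
    · right
      rw [zero_add]
      exact ⟨w', hw', m', h1', h2', k', h3', h4'⟩
    · right
      rw [add_zero]
      exact ⟨w, hw, m, h1, h2, k, h3, h4⟩
    · right
      rcases trich y.1 m m' with h5 | h5 | h5
      · obtain ⟨l, h6, -, -, h7⟩ := hR.up hz h4' (hz.lt_right h5 h3')
        obtain ⟨i, h8, -, -, h9⟩ := hR.comb hz h4 h7 (hz.trans h3.symm h6) 1 1
        rw [one_smul, one_smul] at h9
        exact ⟨w, hw, m, h1, h2, i, hz.trans h3 h8, h9⟩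
      · obtain ⟨i, h8, -, -, h9⟩ := hR.comb hz h4 h4' (hz.trans h3.symm (hz.trans h5 h3')) 1 1
        rw [one_smul, one_smul] at h9
        exact ⟨w, hw, m, h1, h2, i, hz.trans h3 h8, h9⟩
      · obtain ⟨l, h6, -, -, h7⟩ := hR.up hz h4 (hz.lt_right h5 h3)
        obtain ⟨i, h8, -, -, h9⟩ := hR.comb hz h7 h4' (hz.trans h6.symm h3') 1 1
        rw [one_smul, one_smul] at h9
        exact ⟨w', hw', m', h1', h2', i, hz.trans h6 h8, h9⟩
  smul_mem' := by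
    rintro q v (rfl | ⟨w, hw, m, h1, h2, k, h3, h4⟩)
    · left
      rw [smul_zero]
    · right
      obtain ⟨i, h9, -, -, h10⟩ := hR.smul hz h4 q
      exact ⟨w, hw, m, h1, h2, i, hz.trans h3 h9, h10⟩

theorem exists_j [Countable W] {V : Type} [AddCommGroup V] [Module ℚ V] [LinearOrder V]
    [IsOrderedAddMonoid V] [Countable V] {R : V → ℕ → Prop} (hb : Bs π t D) (hy : DW π cd D y)
    (hR : Rp y.1 R) :
    ∃ j : W → V, (∀ (q r : ℚ) (w w' : W), j (q • w + r • w') = q • j w + r • j w') ∧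
      (∀ w m, Mk cd y w m ↔ R (j w) m) ∧
      ∀ v k, y.1.2.1 k ≠ 0 → R v k → ∀ w ∈ D, ∀ m, Mk cd y w m → y.1.2.1 m ≠ 0 →
        (sm y.1 m k ∨ y.1.1 m k = true) → ∃ w' ∈ D, j w' = v := by
  have hz := hy.z0
  let B : Submodule ℚ V := Vb cd D y hz hR.toPR
  have hBk : ∀ v ∈ B, ∀ k, y.1.2.1 k ≠ 0 → R v k → ∃ w ∈ D, ∃ m, Mk cd y w m ∧ y.1.2.1 m ≠ 0 ∧
      (sm y.1 m k ∨ y.1.1 m k = true) := by
    intro v hv k h2 h3
    rcases hv with h4 | ⟨w, hw, l, h4, h5, i, h6, h7⟩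
    · rw [h4] at h3
      exact absurd ((hR.zero_iff hz k).1 h3).1 h2
    · refine ⟨w, hw, l, h4, h5, ?_⟩
      rcases (hR.toRq.iff_of hz h3 h2 i).1 h7 with h9 | ⟨h9, -⟩
      · left
        rw [← h9]
        exact h6
      · right
        exact hz.lt_left h6 h9
  have hkB : ∀ v k, y.1.2.1 k ≠ 0 → R v k → ∀ w ∈ D, ∀ m, Mk cd y w m → y.1.2.1 m ≠ 0 →
        (sm y.1 m k ∨ y.1.1 m k = true) → v ∈ B := by
    intro v k h4 h5 w hw m h6 h7 h8
    right
    rcases h8 with h8 | h8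
    · exact ⟨w, hw, m, h6, h7, k, h8, h5⟩
    · obtain ⟨i, h9, -, -, h10⟩ := hR.toPR.up hz h5 h8
      exact ⟨w, hw, m, h6, h7, i, h9, h10⟩
  have hB : ∀ v ∈ B, ∀ m, y.1.2.1 m ≠ 0 → R v m → ∀ v' m', y.1.2.1 m' ≠ 0 → R v' m' →
      (sm y.1 m m' ∨ y.1.1 m m' = true) → v' ∈ B := by
    intro v hv m h1 h2 v' m' h3 h4 h5
    obtain ⟨w, hw, l, h6, h7, h8⟩ := hBk v hv m h1 h2
    refine hkB v' m' h3 h4 w hw l h6 h7 ?_
    rcases h8 with h8 | h8
    · rcases h5 with h5 | h5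
      · exact Or.inl (hz.trans h8 h5)
      · exact Or.inr (hz.lt_left h8 h5)
    · rcases h5 with h5 | h5
      · exact Or.inr (hz.lt_right h8 h5)
      · exact Or.inr (hz.tr _ _ _ h8 h5)
  have hcB : ∀ v ∈ B, ∀ m, R v m → ∃ w, Mk cd y w m := by
    intro v hv m h1
    by_cases hv0 : v = 0
    · rw [hv0] at h1
      obtain ⟨h2, h3⟩ := (hR.zero_iff hz m).1 h1
      exact ⟨0, hy.zero m h2 h3⟩
    · obtain ⟨k, h2, h3⟩ := hR.tot v hv0
      obtain ⟨w, hw, l, h4, h5, h6⟩ := hBk v hv k h2 h3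
      obtain ⟨w', -, h9⟩ := hy.cov w hw l k h4 h5 h6
      refine ⟨w', ?_⟩
      rw [hy.rq.iff_of hz h9 h2]
      exact (hR.toRq.iff_of hz h3 h2 m).1 h1
  obtain ⟨θ, h1, h2, h3⟩ := embed hz hy.rq hR.toRq (fun _ m _ => hR.sur m) B hB hcB
  let θ' : W →+ V := AddMonoidHom.mk' θ h1
  have hq : ∀ (q : ℚ) (w : W), θ (q • w) = q • θ w := fun q w => map_rat_smul θ' q w
  have h0 : θ 0 = 0 := map_zero θ'
  refine ⟨θ, ?_, ?_, ?_⟩
  · intro q r w w'
    rw [h1, hq, hq]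
  · intro w m
    by_cases hw : w = 0
    · rw [hw, h0, hR.zero_iff hz]
      exact ⟨fun h4 => hy.rq.toPR.of_zero hz h4, fun h4 => hy.zero m h4.1 h4.2⟩
    · exact h2 w hw m
  · intro v k h4 h5 w hw m h6 h7 h8
    obtain ⟨w', h9⟩ := h3 v (hkB v k h4 h5 w hw m h6 h7 h8)
    refine ⟨w', ?_, h9⟩
    have hw' : w' ≠ 0 := by
      rintro rfl
      rw [h0] at h9
      rw [← h9] at h5
      exact h4 ((hR.zero_iff hz k).1 h5).1
    have h10 : Mk cd y w' k := by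
      rw [h2 w' hw', h9]
      exact h5
    obtain ⟨N, hN⟩ := rq_le hy.rq hz h6 h7 h10 h4 h8
    refine hb.conv (N • w) (D.nsmul_mem hw N) w' ?_
    rw [abs_nsmul]
    exact hN

theorem cz_exists [Countable W] (hb : Bs π t D) (hy : DW π cd D y) :
    ∃ (x : XS n) (A : F → Prop) (h : ℕ → F) (j : W → F), Cz π cd t D x y A h j := by
  classical
  have hz := hy.z0
  obtain ⟨A, hA⟩ := exists_gen hz
  obtain ⟨i1, i2, hR, hlt⟩ := model hz hA
  obtain ⟨j, hj1, hj2, hj3⟩ := exists_j hb hy hR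
  have hresj : ∀ w, Rho y.1 (j w).val = rW π w := by
    intro w
    by_cases hw : w = 0
    · have h1 : j 0 = 0 := by
        have := hj1 0 0 0 0
        simpa using this
      rw [hw, h1, MA.val_zero, map_zero]
      refine Hq.ext fun q => ?_
      rw [rW_ev, smul_zero, map_zero, Hq.ev_zero]
    · obtain ⟨k, h1, h2⟩ := hy.rq.tot w hw
      rw [← hy.res w k h2]
      exact ((hj2 w k).1 h2).2.2
  let G := {v : MA A // (Rho y.1 v.val).ev 1 = 0}
  have hGadd : ∀ v w : G, (Rho y.1 (v.1 + w.1).val).ev 1 = 0 := by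
    intro v w
    rw [MA.val_add, map_add, Hq.ev_add, v.2, w.2, add_zero]
  have hspan : ∀ v : MA A, ∃ N : ℕ, N ≠ 0 ∧ (Rho y.1 (N • v).val).ev 1 = 0 := by
    intro v
    obtain ⟨w, hw⟩ := hb.sur ((Rho y.1 v.val).ev 1)
    obtain ⟨N, hN, h1⟩ := hb.tors w
    refine ⟨N, hN, ?_⟩
    rw [val_nsmul, map_nsmul, ev_nsmul, ← hw, ← map_nsmul, h1]
  have hGi : Infinite G := by
    obtain ⟨k, -, hk⟩ := hz.nz 0
    obtain ⟨v, hv⟩ := hR.sur k
    have hv0 : v ≠ 0 := hR.toRq.ne_zero hz hv hk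
    obtain ⟨N, hN, h1⟩ := hspan v
    have hN0 : N • v ≠ 0 := by
      intro h2
      apply hv0
      apply nsmul_cancel hN
      rw [h2, smul_zero]
    have h2 : ∀ l : ℕ, (Rho y.1 (l • (N • v)).val).ev 1 = 0 := by
      intro l
      rw [val_nsmul, map_nsmul, ev_nsmul, h1, smul_zero]
    refine Infinite.of_injective (fun l : ℕ => (⟨l • (N • v), h2 l⟩ : G)) ?_
    intro a b hab
    have h3 : a • (N • v) = b • (N • v) := congrArg (fun g : G => g.1) hab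
    rw [← Nat.cast_smul_eq_nsmul ℚ a, ← Nat.cast_smul_eq_nsmul ℚ b] at h3
    have h4 := smul_left_injective ℚ hN0 h3
    exact_mod_cast h4
  obtain ⟨e⟩ := nonempty_equiv_of_countable (α := ℕ) (β := G)
  let x : XS n := (fun m k => decide ((e m).1 < (e k).1),
    fun m k => e.symm ⟨(e m).1 + (e k).1, hGadd _ _⟩,
    fun i => e.symm ⟨j (t i), by rw [hresj, rW_ev, one_smul, hb.tπ]⟩)
  refine ⟨x, fun c => c ∈ A, fun m => (e m).1.val, fun w => (j w).val, ?_⟩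
  refine ⟨hy, A.zero_mem, fun _ _ => A.add_mem, fun q _ => A.smul_mem q, fun c h1 h2 => hA.tot c h1 h2,
    hA.sur, fun m => (e m).1.mem, ?_, ?_, ?_, ?_, fun w => (j w).mem, ?_, hj2, ?_, ?_⟩
  · intro m k h1
    exact e.injective (Subtype.ext (MA.ext h1))
  · intro m k
    show decide ((e m).1 < (e k).1) = true ↔ _
    rw [decide_eq_true_iff, hlt]
    exact Iff.rfl
  · intro m k
    show (e (e.symm ⟨(e m).1 + (e k).1, hGadd _ _⟩)).1.val = _
    rw [e.apply_symm_apply]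
    rfl
  · intro c hc
    constructor
    · rintro ⟨m, rfl⟩
      exact (e m).2
    · intro h1
      refine ⟨e.symm ⟨MA.of c hc, h1⟩, ?_⟩
      rw [e.apply_symm_apply]
      rfl
  · intro q r w w'
    show (j (q • w + r • w')).val = _
    rw [hj1]
    rfl
  · intro c hc k h1 h2 w hw m h3 h4 h5
    obtain ⟨w', hw', h6⟩ := hj3 (MA.of c hc) k h1 h2 w hw m h3 h4 h5
    exact ⟨w', hw', congrArg MA.val h6⟩
  · intro i
    show (e (e.symm _)).1.val = (j (t i)).val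
    rw [e.apply_symm_apply]

end Pool.Agent.Y566.ZM
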