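import Pool.Agent.Y566.ZM.CzCov

set_option autoImplicit false
set_option linter.unusedSectionVars false

/-! Measurability of the correspondence. -/

namespace Pool.Agent.Y566.ZM

open Pool.Agent.Y566.ZG

open Set MeasureTheory

instance : MeasurableSpace F := ⊤

instance : DiscreteMeasurableSpace F := ⟨fun _ => trivial⟩

instance : StandardBorelSpace F := inferInstance

section gen

variable {X : Type} [MeasurableSpace X]

theorem mev {ι : Type} [Countable ι] [MeasurableSpace ι] [DiscreteMeasurableSpace ι]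
    {Q : X → ι → Prop} (hQ : ∀ j, Measurable fun w => Q w j)
    {g : X → ι} (hg : Measurable g) : Measurable fun w => Q w (g w) := by
  rw [← measurableSet_setOfPred]
  have : {w | Q w (g w)} = ⋃ j, {w | g w = j} ∩ {w | Q w j} := by
    ext w
    simp
  rw [this]
  exact MeasurableSet.iUnion fun j =>
    (hg (measurableSet_singleton j)).inter (measurableSet_setOfPred.2 (hQ j))

theorem mev2 {ι κ : Type} [Countable ι] [MeasurableSpace ι] [DiscreteMeasurableSpace ι]
    [MeasurableSpace κ] [Countable κ] [DiscreteMeasurableSpace κ]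
    {Q : X → ι → κ} (hQ : ∀ j, Measurable fun w => Q w j)
    {g : X → ι} (hg : Measurable g) : Measurable fun w => Q w (g w) := by
  refine measurable_to_countable' fun j => ?_
  have h1 : ∀ i, Measurable fun w => Q w i = j := fun i =>
    measurableSet_setOfPred.1 ((hQ i) (measurableSet_singleton j))
  exact measurableSet_setOfPred.2 (mev h1 hg)

theorem meqd {ι : Type} [Countable ι] [MeasurableSpace ι] [DiscreteMeasurableSpace ι]
    {f g : X → ι} (hf : Measurable f) (hg : Measurable g) : Measurable fun w => f w = g w := by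
  rw [← measurableSet_setOfPred]
  exact measurableSet_eq_fun hf hg

theorem mbool {f : X → Bool} (hf : Measurable f) (b : Bool) : Measurable fun w => f w = b :=
  measurableSet_setOfPred.1 (hf (measurableSet_singleton b))

theorem mop {ι : Type} [Countable ι] [MeasurableSpace ι] [DiscreteMeasurableSpace ι]
    {f g : X → ι} (hf : Measurable f) (hg : Measurable g) (op : ι → ι → ι) :
    Measurable fun w => op (f w) (g w) :=
  (Measurable.of_discrete (f := fun p : ι × ι => op p.1 p.2)).comp (hf.prodMk hg)

end gen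

variable {C : Type} [AddCommGroup C] [MeasurableSpace C] [DiscreteMeasurableSpace C] [Countable C]

theorem meas_Lam (n : ℕ) (c : F) : Measurable fun y : Yc C => Lam y.1 n c := by
  classical
  unfold Lam
  simp only [Finsupp.linearCombination_apply, Finsupp.sum]
  refine Finset.measurable_sum _ fun i _ => ?_
  simp only [Rat.smul_def]
  refine Measurable.const_mul ?_ _
  exact Measurable.ite (measurableSet_setOfPred.2 (msm n i)) (m2 i) measurable_const

theorem meas_Rho (c : F) : Measurable fun y : Yc C => Rho y.1 c := by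
  unfold Rho
  simp only [Finsupp.linearCombination_apply, Finsupp.sum]
  have key : ∀ s : Finset ℕ, Measurable fun y : Yc C => ∑ i ∈ s, c i • y.1.2.2 i := by
    intro s
    classical
    induction s using Finset.induction_on with
    | empty =>
      simp only [Finset.sum_empty]
      exact measurable_const
    | insert i s hi ih =>
      simp only [Finset.sum_insert hi]
      exact Hq.meas_add (Hq.meas_smul (m3 i) _) ih
  exact key _

theorem meas_Rc (c : F) (k : ℕ) : Measurable fun y : Yc C => Rc y.1 c k := by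
  unfold Rc
  exact (Measurable.forall fun n => (m1 _ _ _).imp (meq (meas_Lam n c) measurable_const)).and
    ((meq (meas_Lam k c) (m2 k)).and (Hq.meas_eq (meas_Rho c) (m3 k)))

theorem meas_Ps (c : F) : Measurable fun y : Yc C => Ps y.1 c :=
  Measurable.exists fun k => (mlt measurable_const (m2 k)).and (meas_Rc c k)

variable {W : Type} [AddCommGroup W] [LinearOrder W] [IsOrderedAddMonoid W] [Module ℚ W]
  {n : ℕ} {π : W →+ C} {cd : W → ℕ} {t : Fin n → W} {D : Submodule ℚ W}

/-- The space of all data. -/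
abbrev TS (n : ℕ) (C : Type) [AddCommGroup C] (W : Type) : Type :=
  XS n × Yc C × (F → Prop) × (ℕ → F) × (W → F)

theorem meas_Cz [Countable W] :
    MeasurableSet {w : TS n C W | Cz π cd t D w.1 w.2.1 w.2.2.1 w.2.2.2.1 w.2.2.2.2} := by
  have hx1 : ∀ m k, Measurable fun w : TS n C W => w.1.1 m k := fun m k =>
    measurable_pi_iff.1 (measurable_pi_iff.1 (measurable_fst.comp measurable_fst) m) k
  have hx2 : ∀ m k, Measurable fun w : TS n C W => w.1.2.1 m k := fun m k =>
    measurable_pi_iff.1 (measurable_pi_iff.1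
      ((measurable_fst.comp measurable_snd).comp measurable_fst) m) k
  have hx3 : ∀ i, Measurable fun w : TS n C W => w.1.2.2 i := fun i =>
    measurable_pi_iff.1 ((measurable_snd.comp measurable_snd).comp measurable_fst) i
  have hy : Measurable fun w : TS n C W => w.2.1 := measurable_fst.comp measurable_snd
  have hA : ∀ c, Measurable fun w : TS n C W => w.2.2.1 c := fun c =>
    measurable_pi_iff.1 (measurable_fst.comp (measurable_snd.comp measurable_snd)) c
  have hh : ∀ m, Measurable fun w : TS n C W => w.2.2.2.1 m := fun m =>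
    measurable_pi_iff.1 (measurable_fst.comp
      (measurable_snd.comp (measurable_snd.comp measurable_snd))) m
  have hj : ∀ v, Measurable fun w : TS n C W => w.2.2.2.2 v := fun v =>
    measurable_pi_iff.1 (measurable_snd.comp
      (measurable_snd.comp (measurable_snd.comp measurable_snd))) v
  have hMk : ∀ (v : W) (m : ℕ), Measurable fun w : TS n C W => Mk cd w.2.1 v m := fun v m =>
    (m4 (C := C) m (cd v) true).comp hy
  have hRc : ∀ c k, Measurable fun w : TS n C W => Rc w.2.1.1 c k := fun c k =>
    (meas_Rc (C := C) c k).comp hy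
  have ha : ∀ k, Measurable fun w : TS n C W => w.2.1.1.2.1 k := fun k => (m2 (C := C) k).comp hy
  have hne : ∀ k, Measurable fun w : TS n C W => w.2.1.1.2.1 k ≠ 0 := fun k =>
    (meq (ha k) measurable_const).not
  have hz : ∀ k l b, Measurable fun w : TS n C W => w.2.1.1.1 k l = b := fun k l b =>
    (m1 (C := C) k l b).comp hy
  have hs : ∀ k l, Measurable fun w : TS n C W => sm w.2.1.1 k l := fun k l =>
    (msm (C := C) k l).comp hy
  have h : ∀ w : TS n C W, Cz π cd t D w.1 w.2.1 w.2.2.1 w.2.2.2.1 w.2.2.2.2 ↔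
      (DW π cd D w.2.1 ∧ w.2.2.1 0 ∧
      (∀ c d, w.2.2.1 c → w.2.2.1 d → w.2.2.1 (c + d)) ∧
      (∀ (q : ℚ) c, w.2.2.1 c → w.2.2.1 (q • c)) ∧
      (∀ c, w.2.2.1 c → c ≠ 0 → ∃ k, w.2.1.1.2.1 k ≠ 0 ∧ Rc w.2.1.1 c k) ∧
      (∀ m, ∃ c, w.2.2.1 c ∧ Rc w.2.1.1 c m) ∧
      (∀ m, w.2.2.1 (w.2.2.2.1 m)) ∧
      (∀ m k, w.2.2.2.1 m = w.2.2.2.1 k → m = k) ∧
      (∀ m k, w.1.1 m k = true ↔ Ps w.2.1.1 (w.2.2.2.1 k - w.2.2.2.1 m)) ∧
      (∀ m k, w.2.2.2.1 (w.1.2.1 m k) = w.2.2.2.1 m + w.2.2.2.1 k) ∧
      (∀ c, w.2.2.1 c → ((∃ m, w.2.2.2.1 m = c) ↔ (Rho w.2.1.1 c).ev 1 = 0)) ∧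
      (∀ v, w.2.2.1 (w.2.2.2.2 v)) ∧
      (∀ (q r : ℚ) (v v' : W), w.2.2.2.2 (q • v + r • v') = q • w.2.2.2.2 v + r • w.2.2.2.2 v') ∧
      (∀ v m, Mk cd w.2.1 v m ↔ Rc w.2.1.1 (w.2.2.2.2 v) m) ∧
      (∀ c, w.2.2.1 c → ∀ k, w.2.1.1.2.1 k ≠ 0 → Rc w.2.1.1 c k → ∀ v, v ∈ D → ∀ m,
        Mk cd w.2.1 v m → w.2.1.1.2.1 m ≠ 0 → (sm w.2.1.1 m k ∨ w.2.1.1.1 m k = true) →
        ∃ v', v' ∈ D ∧ w.2.2.2.2 v' = c) ∧
      (∀ i, w.2.2.2.1 (w.1.2.2 i) = w.2.2.2.2 (t i))) := fun w =>
    ⟨fun h => ⟨h.dw, h.zero, h.add, h.smul, h.tot, h.sur, h.hA, h.hinj, h.hlt, h.hadd, h.himg, h.jA,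
      h.jlin, h.jmk, h.jconv, h.js⟩,
    fun ⟨h1, h2, h3, h4, h5, h6, h7, h8, h9, h10, h11, h12, h13, h14, h15, h16⟩ =>
      ⟨h1, h2, h3, h4, h5, h6, h7, h8, h9, h10, h11, h12, h13, h14, h15, h16⟩⟩
  simp only [h]
  rw [measurableSet_setOfPred]
  refine Measurable.and ((measurableSet_setOfPred.1 meas_DW).comp hy) (Measurable.and (hA 0)
    (Measurable.and ?_ (Measurable.and ?_ (Measurable.and ?_ (Measurable.and ?_
    (Measurable.and ?_ (Measurable.and ?_ (Measurable.and ?_ (Measurable.and ?_
    (Measurable.and ?_ (Measurable.and ?_ (Measurable.and ?_ (Measurable.and ?_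
    (Measurable.and ?_ ?_))))))))))))))
  · exact Measurable.forall fun c => Measurable.forall fun d => (hA _).imp ((hA _).imp (hA _))
  · exact Measurable.forall fun q => Measurable.forall fun c => (hA _).imp (hA _)
  · exact Measurable.forall fun c => (hA _).imp (measurable_const.imp
      (Measurable.exists fun k => (hne _).and (hRc _ _)))
  · exact Measurable.forall fun m => Measurable.exists fun c => (hA _).and (hRc _ _)
  · exact Measurable.forall fun m => mev hA (hh m)
  · exact Measurable.forall fun m => Measurable.forall fun k =>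
      (meqd (hh m) (hh k)).imp measurable_const
  · exact Measurable.forall fun m => Measurable.forall fun k => (mbool (hx1 m k) true).iff
      (mev (Q := fun (w : TS n C W) c => Ps w.2.1.1 c) (fun c => (meas_Ps c).comp hy)
        (mop (hh k) (hh m) (fun a b => a - b)))
  · exact Measurable.forall fun m => Measurable.forall fun k =>
      meqd (mev2 (Q := fun (w : TS n C W) i => w.2.2.2.1 i) hh (hx2 m k))
        (mop (hh m) (hh k) (fun a b => a + b))
  · refine Measurable.forall fun c => (hA _).imp (Measurable.iff ?_ ?_)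
    · exact Measurable.exists fun m => meqd (hh m) measurable_const
    · exact meqd ((Hq.measurable_ev 1).comp ((meas_Rho c).comp hy)) measurable_const
  · exact Measurable.forall fun v => mev hA (hj v)
  · exact Measurable.forall fun q => Measurable.forall fun r => Measurable.forall fun v =>
      Measurable.forall fun v' => meqd (hj _) (mop (hj v) (hj v') (fun a b => q • a + r • b))
  · exact Measurable.forall fun v => Measurable.forall fun m => (hMk _ _).iff
      (mev (Q := fun (w : TS n C W) c => Rc w.2.1.1 c m) (fun c => hRc c m) (hj v))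
  · exact Measurable.forall fun c => (hA _).imp (Measurable.forall fun k => (hne _).imp
      ((hRc _ _).imp (Measurable.forall fun v => measurable_const.imp (Measurable.forall fun m =>
        (hMk _ _).imp ((hne _).imp (((hs _ _).or (hz _ _ _)).imp (Measurable.exists fun v' =>
          measurable_const.and (meqd (hj v') measurable_const))))))))
  · exact Measurable.forall fun i =>
      meqd (mev2 (Q := fun (w : TS n C W) i => w.2.2.2.1 i) hh (hx3 i)) (hj _)

end Pool.Agent.Y566.ZM
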