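import Pool.Agent.Y566.ZM.Base

set_option autoImplicit false
set_option linter.unusedSectionVars false

/-! The dichotomy for ordered groups which are divisible modulo a copy of a fixed ordered group. -/

namespace Pool.Agent.Y566.ZM

open Pool.Agent.Y566.ZG

open Set MeasureTheory

/-- The axioms of ordered abelian groups. -/
structure OA (l : ℕ → ℕ → Bool) (ad : ℕ → ℕ → ℕ) : Prop where
  irr : ∀ m, l m m = false
  tr : ∀ m n k, l m n = true → l n k = true → l m k = true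
  tot : ∀ m n, l m n = true ∨ m = n ∨ l n m = true
  comm : ∀ m n, ad m n = ad n m
  assoc : ∀ m n k, ad (ad m n) k = ad m (ad n k)
  zero : ∃ z, (∀ m, ad z m = m) ∧ ∀ m, ∃ k, ad k m = z
  mono : ∀ m n k, l m n = true → l (ad k m) (ad k n) = true

/-- `e` identifies the structure on `ℕ` with the ordered group `G`. -/
structure Rep (l : ℕ → ℕ → Bool) (ad : ℕ → ℕ → ℕ) {G : Type} [AddCommGroup G] [LinearOrder G]
    (e : ℕ ≃ G) : Prop where
  lt : ∀ m k, l m k = true ↔ e m < e k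
  add : ∀ m k, e (ad m k) = e m + e k

/-- A copy of the natural numbers. -/
structure GN where
  /-- The value. -/
  v : ℕ

theorem GN.ext' {a b : GN} (h : a.v = b.v) : a = b := by
  cases a
  cases b
  simp only at h
  rw [h]

variable {l : ℕ → ℕ → Bool} {ad : ℕ → ℕ → ℕ}

/-- The group. -/
@[reducible] noncomputable def OA.grp (h : OA l ad) : AddCommGroup GN :=
  letI : Add GN := ⟨fun a b => ⟨ad a.v b.v⟩⟩
  letI : Zero GN := ⟨⟨h.zero.choose⟩⟩
  letI : Neg GN := ⟨fun a => ⟨(h.zero.choose_spec.2 a.v).choose⟩⟩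
  { AddGroup.ofLeftAxioms (G := GN) (fun a b c => GN.ext' (h.assoc _ _ _))
      (fun a => GN.ext' (h.zero.choose_spec.1 _))
      (fun a => GN.ext' (h.zero.choose_spec.2 a.v).choose_spec) with
    add_comm := fun a b => GN.ext' (h.comm _ _) }

/-- The order. -/
@[reducible] noncomputable def OA.lin (h : OA l ad) : LinearOrder GN where
  le a b := ¬ l b.v a.v = true
  lt a b := l a.v b.v = true
  le_refl a := by
    rw [h.irr]
    exact Bool.false_ne_true
  le_trans a b c h1 h2 h3 := by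
    rcases h.tot b.v a.v with h4 | h4 | h4
    · exact h1 h4
    · rw [h4] at h2
      exact h2 h3
    · exact h2 (h.tr _ _ _ h3 h4)
  lt_iff_le_not_ge a b := by
    constructor
    · intro h1
      refine ⟨fun h2 => ?_, fun h2 => h2 h1⟩
      have := h.tr _ _ _ h1 h2
      rw [h.irr] at this
      exact Bool.false_ne_true this
    · rintro ⟨h1, h2⟩
      exact not_not.1 h2
  le_antisymm a b h1 h2 := by
    rcases h.tot a.v b.v with h4 | h4 | h4
    · exact absurd h4 h2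
    · exact GN.ext' h4
    · exact absurd h4 h1
  le_total a b := by
    rcases h.tot a.v b.v with h4 | h4 | h4
    · left
      intro h5
      have := h.tr _ _ _ h4 h5
      rw [h.irr] at this
      exact Bool.false_ne_true this
    · left
      rw [h4, h.irr]
      exact Bool.false_ne_true
    · right
      intro h5
      have := h.tr _ _ _ h4 h5
      rw [h.irr] at this
      exact Bool.false_ne_true this
  toDecidableLE := Classical.decRel _

theorem OA.exists_rep (h : OA l ad) : ∃ (G : Type) (_ : AddCommGroup G) (_ : LinearOrder G)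
    (_ : IsOrderedAddMonoid G) (e : ℕ ≃ G), Rep l ad e := by
  letI := h.grp
  letI := h.lin
  have hm : ∀ a b c : GN, a < b → c + a < c + b := fun a b c h1 => h.mono _ _ _ h1
  have hm2 : ∀ a b : GN, a ≤ b → ∀ c, c + a ≤ c + b := by
    intro a b hab c
    rcases hab.lt_or_eq with h1 | h1
    · exact (hm _ _ _ h1).le
    · rw [h1]
  haveI : IsOrderedAddMonoid GN := by
    constructor
    · intro a b hab c
      rw [add_comm a, add_comm b]
      exact hm2 a b hab c
    · exact hm2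
  exact ⟨GN, h.grp, h.lin, this, ⟨GN.mk, GN.v, fun _ => rfl, fun _ => rfl⟩, fun m k => Iff.rfl,
    fun m k => rfl⟩

theorem Rep.oa {G : Type} [AddCommGroup G] [LinearOrder G] [IsOrderedAddMonoid G]
    {e : ℕ ≃ G} (h : Rep l ad e) : OA l ad := by
  refine ⟨?_, ?_, ?_, ?_, ?_, ⟨e.symm 0, ?_, ?_⟩, ?_⟩
  · intro m
    rw [← Bool.not_eq_true, h.lt]
    exact lt_irrefl _
  · intro m n k h1 h2
    rw [h.lt] at *
    exact h1.trans h2
  · intro m n
    rw [h.lt, h.lt, ← e.injective.eq_iff (a := m)]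
    exact lt_trichotomy _ _
  · intro m n
    exact e.injective (by rw [h.add, h.add, add_comm])
  · intro m n k
    exact e.injective (by rw [h.add, h.add, h.add, h.add, add_assoc])
  · intro m
    exact e.injective (by rw [h.add, e.apply_symm_apply, zero_add])
  · intro m
    exact ⟨e.symm (- e m), e.injective (by
      rw [h.add, e.apply_symm_apply, e.apply_symm_apply, neg_add_cancel])⟩
  · intro m n k h1
    rw [h.lt] at h1 ⊢
    rw [h.add, h.add]
    exact (add_lt_add_iff_left _).2 h1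

theorem Rep.iter {G : Type} [AddCommGroup G] [LinearOrder G] {e : ℕ ≃ G} (h : Rep l ad e)
    (g m N : ℕ) : e ((ad g)^[N] m) = N • e g + e m := by
  induction N with
  | zero => simp
  | succ N ih => rw [Function.iterate_succ_apply', h.add, ih, succ_nsmul]; abel

variable {H : Type} [AddCommGroup H] [LinearOrder H] [IsOrderedAddMonoid H] {n : ℕ}
  {s₀ : Fin n → H} {H₁ : AddSubgroup H}

/-- `f` embeds `H` as a pure subgroup modulo which the structure is divisible, and `H₁` as a convex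
subgroup. -/
structure FE (s₀ : Fin n → H) (H₁ : AddSubgroup H) (x : XS n) (f : H → ℕ) : Prop where
  oa : OA x.1 x.2.1
  add : ∀ a b, f (a + b) = x.2.1 (f a) (f b)
  mono : ∀ a b, a < b → x.1 (f a) (f b) = true
  s : ∀ i, f (s₀ i) = x.2.2 i
  conv : ∀ a ∈ H₁, ∀ b ∈ H₁, ∀ g, x.1 g (f a) = false → x.1 (f b) g = false → ∃ a' ∈ H₁, f a' = g
  pure : ∀ g N a, N ≠ 0 → (x.2.1 g)^[N] (f 0) = f a → ∃ a', f a' = g
  div : ∀ g N, N ≠ 0 → ∃ g' h, (x.2.1 g')^[N] (f h) = g

/-- `ι` embeds `H` as a pure subgroup modulo which `G` is divisible, and `H₁` as a convex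
subgroup. -/
structure Em (s₀ : Fin n → H) (H₁ : AddSubgroup H) {G : Type} [AddCommGroup G] [LinearOrder G]
    (s : Fin n → G) (ι : H →+ G) : Prop where
  pos : ∀ a, 0 < a → 0 < ι a
  s : ∀ i, ι (s₀ i) = s i
  conv : ∀ (g : G), ∀ a ∈ H₁, |g| ≤ |ι a| → ∃ a' ∈ H₁, ι a' = g
  pure : ∀ (g : G) (N : ℕ) (a : H), N ≠ 0 → N • g = ι a → ∃ a', ι a' = g
  div : ∀ (g : G) (N : ℕ), N ≠ 0 → ∃ g' a, g = N • g' + ι a

section em

variable {G : Type} [AddCommGroup G] [LinearOrder G] [IsOrderedAddMonoid G] {s : Fin n → G}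
  {ι ι' : H →+ G}

theorem mono_of_pos (h : ∀ a, 0 < a → 0 < ι a) : StrictMono ι := by
  intro a b hab
  have := h (b - a) (sub_pos.2 hab)
  rw [map_sub] at this
  exact sub_pos.1 this

theorem abs_of_pos' (h : ∀ a, 0 < a → 0 < ι a) (a : H) : ι |a| = |ι a| := by
  rcases lt_trichotomy a 0 with h1 | h1 | h1
  · have h2 := mono_of_pos h h1
    rw [map_zero] at h2
    rw [abs_of_neg h1, abs_of_neg h2, map_neg]
  · rw [h1, abs_zero, map_zero, abs_zero]
  · rw [abs_of_pos h1, abs_of_pos (h a h1)]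

/-- The conditions on the fixed group. -/
structure Sh (s₀ : Fin n → H) (H₁ : AddSubgroup H) : Prop where
  fin : ∀ w : H, ∃ (N : ℕ) (a : Fin n → ℤ), N ≠ 0 ∧ N • w - ∑ i, a i • s₀ i ∈ H₁
  conv : ∀ w ∈ H₁, ∀ w' : H, |w'| ≤ |w| → w' ∈ H₁
  sep : ∀ x ∈ H₁, ∀ y ∈ H₁, x < y → ∃ (N : ℕ) (a : Fin n → ℤ), N ≠ 0 ∧
    N • x ≤ ∑ i, a i • s₀ i ∧ ∑ i, a i • s₀ i < N • y
  cof : ∀ w ∈ H₁, ∃ a : Fin n → ℤ, ∑ i, a i • s₀ i ∈ H₁ ∧ |w| ≤ ∑ i, a i • s₀ i

theorem em_sum (h : Em s₀ H₁ s ι) (h' : Em s₀ H₁ s ι') (c : Fin n → ℤ) :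
    ι' (∑ i, c i • s₀ i) = ι (∑ i, c i • s₀ i) := by
  rw [map_sum, map_sum]
  refine Finset.sum_congr rfl fun i _ => ?_
  rw [map_zsmul, map_zsmul, h.s, h'.s]

theorem em_not_lt (hs : Sh s₀ H₁) (h : Em s₀ H₁ s ι) (h' : Em s₀ H₁ s ι') (a : H) (ha : a ∈ H₁) :
    ¬ ι a < ι' a := by
  intro hlt
  obtain ⟨d, hd1, hd2⟩ := hs.cof a ha
  obtain ⟨b, hb1, hb⟩ := h.conv (ι' a) _ hd1 (by
    rw [← em_sum h h', ← abs_of_pos' h'.pos a]
    exact ((mono_of_pos h'.pos).monotone hd2).trans (le_abs_self _))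
  rw [← hb] at hlt
  have hab : a < b := (mono_of_pos h.pos).lt_iff_lt.1 hlt
  obtain ⟨M, c, -, h1, h2⟩ := hs.sep a ha b hb1 hab
  have h4 := (mono_of_pos h'.pos).monotone h1
  have h5 := mono_of_pos h.pos h2
  rw [map_nsmul, ← hb, em_sum h h'] at h4
  rw [map_nsmul] at h5
  exact absurd h5 (not_lt.2 h4)

theorem em_unique (hs : Sh s₀ H₁) (h : Em s₀ H₁ s ι) (h' : Em s₀ H₁ s ι') : ι = ι' := by
  have key : ∀ a ∈ H₁, ι a = ι' a := by
    intro a ha
    rcases lt_trichotomy (ι a) (ι' a) with h1 | h1 | h1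
    · exact absurd h1 (em_not_lt hs h h' a ha)
    · exact h1
    · exact absurd h1 (em_not_lt hs h' h a ha)
  ext a
  obtain ⟨N, c, hN, h1⟩ := hs.fin a
  have h2 := key _ h1
  rw [map_sub, map_sub, em_sum h h', map_nsmul, map_nsmul] at h2
  exact nsmul_right_injective hN (sub_left_injective h2)

theorem abs_mem' {a : H} (ha : a ∈ H₁) : |a| ∈ H₁ := by
  rcases abs_choice a with h | h
  · rw [h]
    exact ha
  · rw [h]
    exact H₁.neg_mem ha

variable {x : XS n} {e : ℕ ≃ G} {f : H → ℕ}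

theorem FE.em (h : FE s₀ H₁ x f) (hr : Rep x.1 x.2.1 e) :
    ∃ ι : H →+ G, (∀ a, ι a = e (f a)) ∧ Em s₀ H₁ (fun i => e (x.2.2 i)) ι := by
  refine ⟨AddMonoidHom.mk' (fun a => e (f a)) (fun a b => ?_), fun a => rfl, ?_⟩
  · rw [h.add, hr.add]
  · set ι : H →+ G := AddMonoidHom.mk' (fun a => e (f a)) (fun a b => by
      rw [h.add, hr.add]) with hι
    have hιa : ∀ a, ι a = e (f a) := fun a => rfl
    have hp : ∀ a, 0 < a → 0 < ι a := by
      intro a ha
      have h1 := (hr.lt _ _).1 (h.mono 0 a ha)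
      rw [← hιa, ← hιa, map_zero] at h1
      exact h1
    refine ⟨hp, fun i => ?_, fun g a ha hg => ?_, fun g N a hN hg => ?_, fun g N hN => ?_⟩
    · rw [hιa, h.s]
    · rw [← abs_of_pos' hp, abs_le] at hg
      obtain ⟨a', ha1, ha'⟩ := h.conv (-|a|) (H₁.neg_mem (abs_mem' ha)) |a| (abs_mem' ha)
        (e.symm g) (by
        rw [← Bool.not_eq_true, hr.lt, not_lt, e.apply_symm_apply, ← hιa, map_neg]
        exact hg.1) (by
        rw [← Bool.not_eq_true, hr.lt, not_lt, e.apply_symm_apply, ← hιa]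
        exact hg.2)
      refine ⟨a', ha1, ?_⟩
      rw [hιa, ha', e.apply_symm_apply]
    · obtain ⟨a', ha'⟩ := h.pure (e.symm g) N a hN (e.injective (by
        rw [hr.iter, e.apply_symm_apply, ← hιa, ← hιa, map_zero, add_zero, hg]))
      refine ⟨a', ?_⟩
      rw [hιa, ha', e.apply_symm_apply]
    · obtain ⟨g', a, h1⟩ := h.div (e.symm g) N hN
      refine ⟨e g', a, ?_⟩
      rw [hιa, ← hr.iter, h1, e.apply_symm_apply]

theorem Em.fe (h : Em s₀ H₁ (fun i => e (x.2.2 i)) ι) (hr : Rep x.1 x.2.1 e) :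
    FE s₀ H₁ x (fun a => e.symm (ι a)) := by
  refine ⟨hr.oa, ?_, ?_, ?_, ?_, ?_, ?_⟩
  · intro a b
    refine e.injective ?_
    rw [hr.add, e.apply_symm_apply, e.apply_symm_apply, e.apply_symm_apply, map_add]
  · intro a b hab
    rw [hr.lt, e.apply_symm_apply, e.apply_symm_apply]
    exact mono_of_pos h.pos hab
  · intro i
    rw [h.s, e.symm_apply_apply]
  · intro a ha b hb g h1 h2
    rw [← Bool.not_eq_true, hr.lt, not_lt, e.apply_symm_apply] at h1 h2
    obtain ⟨a', ha1, ha'⟩ := h.conv (e g) (|a| + |b|) (H₁.add_mem (abs_mem' ha) (abs_mem' hb)) (by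
      rw [map_add, abs_of_pos' h.pos, abs_of_pos' h.pos, abs_of_nonneg (a := |ι a| + |ι b|)
        (add_nonneg (abs_nonneg _) (abs_nonneg _)), abs_le]
      constructor
      · rw [neg_add]
        have h3 := neg_abs_le (ι a)
        have h4 : -|ι b| ≤ 0 := neg_nonpos.2 (abs_nonneg _)
        calc -|ι a| + -|ι b| ≤ ι a + 0 := add_le_add h3 h4
          _ = ι a := add_zero _
          _ ≤ e g := h1
      · have h3 := le_abs_self (ι b)
        calc e g ≤ ι b := h2
          _ = 0 + ι b := (zero_add _).symm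
          _ ≤ |ι a| + |ι b| := add_le_add (abs_nonneg _) h3)
    refine ⟨a', ha1, ?_⟩
    rw [ha', e.symm_apply_apply]
  · intro g N a hN h1
    have h2 := congrArg e h1
    rw [hr.iter, e.apply_symm_apply, e.apply_symm_apply, map_zero, add_zero] at h2
    obtain ⟨a', ha'⟩ := h.pure (e g) N a hN h2
    refine ⟨a', ?_⟩
    rw [ha', e.symm_apply_apply]
  · intro g N hN
    obtain ⟨g', a, h1⟩ := h.div (e g) N hN
    refine ⟨e.symm g', a, e.injective ?_⟩
    rw [hr.iter, e.apply_symm_apply, e.apply_symm_apply, ← h1]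

end em

/-- The structures which contain a copy of `H` as a pure subgroup modulo which they are
divisible, with `H₁` convex. -/
def Kc (s₀ : Fin n → H) (H₁ : AddSubgroup H) : Set (XS n) := {x | ∃ f, FE s₀ H₁ x f}

theorem mem_Kc {x : XS n} : x ∈ Kc s₀ H₁ ↔ ∃ (G : Type) (_ : AddCommGroup G) (_ : LinearOrder G)
    (_ : IsOrderedAddMonoid G) (e : ℕ ≃ G) (ι : H →+ G), Rep x.1 x.2.1 e ∧
      Em s₀ H₁ (fun i => e (x.2.2 i)) ι := by
  constructor
  · rintro ⟨f, hf⟩
    obtain ⟨G, i1, i2, i3, e, he⟩ := hf.oa.exists_rep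
    obtain ⟨ι, -, h2⟩ := hf.em he
    exact ⟨G, i1, i2, i3, e, ι, he, h2⟩
  · rintro ⟨G, i1, i2, i3, e, ι, he, h2⟩
    exact ⟨_, h2.fe he⟩

theorem Kc_inv : ∀ x ∈ Kc s₀ H₁, ∀ x', XIso x x' → x' ∈ Kc s₀ H₁ := by
  intro x hx x' ⟨τ, h1, h2, h3⟩
  rw [mem_Kc] at hx ⊢
  obtain ⟨G, i1, i2, i3, e, ι, he, h4⟩ := hx
  have h5 : ∀ m, (τ.symm.trans e) (τ m) = e m := fun m => by simp
  refine ⟨G, i1, i2, i3, τ.symm.trans e, ι, ⟨?_, ?_⟩, ?_⟩
  · intro m k
    obtain ⟨m, rfl⟩ := τ.surjective m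
    obtain ⟨k, rfl⟩ := τ.surjective k
    rw [h5, h5, h1, he.lt]
  · intro m k
    obtain ⟨m, rfl⟩ := τ.surjective m
    obtain ⟨k, rfl⟩ := τ.surjective k
    rw [h5, h5, h2, h5, he.add]
  · have h6 : (fun i => (τ.symm.trans e) (x'.2.2 i)) = fun i => e (x.2.2 i) := by
      funext i
      rw [h3, h5]
    rw [h6]
    exact h4

theorem FE.unique (hs : Sh s₀ H₁) {x : XS n} {f f' : H → ℕ} (h : FE s₀ H₁ x f) (h' : FE s₀ H₁ x f') :
    f = f' := by
  obtain ⟨G, i1, i2, i3, e, he⟩ := h.oa.exists_rep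
  obtain ⟨ι, h1, h2⟩ := h.em he
  obtain ⟨ι', h1', h2'⟩ := h'.em he
  have h3 := em_unique hs h2 h2'
  funext a
  refine e.injective ?_
  rw [← h1, ← h1', h3]

end Pool.Agent.Y566.ZM
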