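import Pool.Agent.Y566.ZM.Fam

set_option autoImplicit false
set_option linter.unusedSectionVars false

/-! The dichotomy for ordered groups which are divisible modulo a copy of a fixed ordered group:
measurability and the conclusion. -/

namespace Pool.Agent.Y566.ZM

open Pool.Agent.Y566.ZG

open Set MeasureTheory

variable {H : Type} [AddCommGroup H] [LinearOrder H] [IsOrderedAddMonoid H] {n : ℕ}
  {s₀ : Fin n → H} {H₁ : AddSubgroup H}

theorem meas_FE [Countable H] : MeasurableSet {w : XS n × (H → ℕ) | FE s₀ H₁ w.1 w.2} := by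
  have hx1 : ∀ m k, Measurable fun w : XS n × (H → ℕ) => w.1.1 m k := fun m k =>
    measurable_pi_iff.1 (measurable_pi_iff.1 (measurable_fst.comp measurable_fst) m) k
  have hx2 : ∀ m k, Measurable fun w : XS n × (H → ℕ) => w.1.2.1 m k := fun m k =>
    measurable_pi_iff.1 (measurable_pi_iff.1
      ((measurable_fst.comp measurable_snd).comp measurable_fst) m) k
  have hx3 : ∀ i, Measurable fun w : XS n × (H → ℕ) => w.1.2.2 i := fun i =>
    measurable_pi_iff.1 ((measurable_snd.comp measurable_snd).comp measurable_fst) i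
  have hf : ∀ a, Measurable fun w : XS n × (H → ℕ) => w.2 a := fun a =>
    measurable_pi_iff.1 measurable_snd a
  have hl : ∀ {f g : XS n × (H → ℕ) → ℕ}, Measurable f → Measurable g →
      Measurable fun w : XS n × (H → ℕ) => w.1.1 (f w) (g w) := fun {f g} h1 h2 =>
    mev2 (Q := fun w j => w.1.1 j (g w)) (fun j => mev2 (Q := fun w k => w.1.1 j k)
      (fun k => hx1 j k) h2) h1
  have ha : ∀ {f g : XS n × (H → ℕ) → ℕ}, Measurable f → Measurable g →
      Measurable fun w : XS n × (H → ℕ) => w.1.2.1 (f w) (g w) := fun {f g} h1 h2 =>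
    mev2 (Q := fun w j => w.1.2.1 j (g w)) (fun j => mev2 (Q := fun w k => w.1.2.1 j k)
      (fun k => hx2 j k) h2) h1
  have hc : ∀ m : ℕ, Measurable fun _ : XS n × (H → ℕ) => m := fun m => measurable_const
  have hit : ∀ (g : ℕ) (a : H) (N : ℕ),
      Measurable fun w : XS n × (H → ℕ) => (w.1.2.1 g)^[N] (w.2 a) := by
    intro g a N
    induction N with
    | zero => exact hf a
    | succ N ih =>
      simp only [Function.iterate_succ_apply']
      exact ha (hc g) ih
  have e : ∀ w : XS n × (H → ℕ), FE s₀ H₁ w.1 w.2 ↔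
      (((∀ m, w.1.1 m m = false) ∧
        (∀ m n k, w.1.1 m n = true → w.1.1 n k = true → w.1.1 m k = true) ∧
        (∀ m n, w.1.1 m n = true ∨ m = n ∨ w.1.1 n m = true) ∧
        (∀ m n, w.1.2.1 m n = w.1.2.1 n m) ∧
        (∀ m n k, w.1.2.1 (w.1.2.1 m n) k = w.1.2.1 m (w.1.2.1 n k)) ∧
        (∃ z, (∀ m, w.1.2.1 z m = m) ∧ ∀ m, ∃ k, w.1.2.1 k m = z) ∧
        (∀ m n k, w.1.1 m n = true → w.1.1 (w.1.2.1 k m) (w.1.2.1 k n) = true)) ∧
      (∀ a b, w.2 (a + b) = w.1.2.1 (w.2 a) (w.2 b)) ∧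
      (∀ a b, a < b → w.1.1 (w.2 a) (w.2 b) = true) ∧
      (∀ i, w.2 (s₀ i) = w.1.2.2 i) ∧
      (∀ a, a ∈ H₁ → ∀ b, b ∈ H₁ → ∀ g, w.1.1 g (w.2 a) = false → w.1.1 (w.2 b) g = false →
        ∃ a', a' ∈ H₁ ∧ w.2 a' = g) ∧
      (∀ g N a, N ≠ 0 → (w.1.2.1 g)^[N] (w.2 0) = w.2 a → ∃ a', w.2 a' = g) ∧
      (∀ g N, N ≠ 0 → ∃ g' h, (w.1.2.1 g')^[N] (w.2 h) = g)) := by
    intro w
    constructor
    · rintro ⟨⟨h1, h2, h3, h4, h5, h6, h7⟩, h8, h9, h10, h11, h12, h13⟩
      exact ⟨⟨h1, h2, h3, h4, h5, h6, h7⟩, h8, h9, h10, h11, h12, h13⟩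
    · rintro ⟨⟨h1, h2, h3, h4, h5, h6, h7⟩, h8, h9, h10, h11, h12, h13⟩
      exact ⟨⟨h1, h2, h3, h4, h5, h6, h7⟩, h8, h9, h10, h11, h12, h13⟩
  simp only [e]
  rw [measurableSet_setOfPred]
  refine Measurable.and (Measurable.and ?_ (Measurable.and ?_ (Measurable.and ?_
    (Measurable.and ?_ (Measurable.and ?_ (Measurable.and ?_ ?_))))))
    (Measurable.and ?_ (Measurable.and ?_ (Measurable.and ?_ (Measurable.and ?_
    (Measurable.and ?_ ?_)))))
  · exact Measurable.forall fun m => mbool (hx1 m m) false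
  · exact Measurable.forall fun m => Measurable.forall fun n => Measurable.forall fun k =>
      (mbool (hx1 m n) true).imp ((mbool (hx1 n k) true).imp (mbool (hx1 m k) true))
  · exact Measurable.forall fun m => Measurable.forall fun n =>
      (mbool (hx1 m n) true).or (measurable_const.or (mbool (hx1 n m) true))
  · exact Measurable.forall fun m => Measurable.forall fun n => meqd (hx2 m n) (hx2 n m)
  · exact Measurable.forall fun m => Measurable.forall fun n => Measurable.forall fun k =>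
      meqd (ha (hx2 m n) (hc k)) (ha (hc m) (hx2 n k))
  · exact Measurable.exists fun z => (Measurable.forall fun m => meqd (hx2 z m) (hc m)).and
      (Measurable.forall fun m => Measurable.exists fun k => meqd (hx2 k m) (hc z))
  · exact Measurable.forall fun m => Measurable.forall fun n => Measurable.forall fun k =>
      (mbool (hx1 m n) true).imp (mbool (hl (hx2 k m) (hx2 k n)) true)
  · exact Measurable.forall fun a => Measurable.forall fun b =>
      meqd (hf (a + b)) (ha (hf a) (hf b))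
  · exact Measurable.forall fun a => Measurable.forall fun b =>
      Measurable.imp measurable_const (mbool (hl (hf a) (hf b)) true)
  · exact Measurable.forall fun i => meqd (hf (s₀ i)) (hx3 i)
  · exact Measurable.forall fun a => measurable_const.imp (Measurable.forall fun b =>
      measurable_const.imp (Measurable.forall fun g =>
      (mbool (hl (hc g) (hf a)) false).imp ((mbool (hl (hf b) (hc g)) false).imp
        (Measurable.exists fun a' => measurable_const.and (meqd (hf a') (hc g))))))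
  · exact Measurable.forall fun g => Measurable.forall fun N => Measurable.forall fun a =>
      measurable_const.imp ((meqd (hit g 0 N) (hf a)).imp
        (Measurable.exists fun a' => meqd (hf a') (hc g)))
  · exact Measurable.forall fun g => Measurable.forall fun N =>
      Measurable.imp measurable_const (Measurable.exists fun g' => Measurable.exists fun h =>
        meqd (hit g' h N) (hc g))

theorem Kc_meas [Countable H] (hs : Sh s₀ H₁) : MeasurableSet (Kc s₀ H₁ : Set (XS n)) := by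
  haveI h1 : StandardBorelSpace (XS n) := inferInstance
  haveI h2 : StandardBorelSpace (H → ℕ) := inferInstance
  haveI : StandardBorelSpace (XS n × (H → ℕ)) := @StandardBorelSpace.prod _ _ _ _ h1 h2
  have e : (Kc s₀ H₁ : Set (XS n)) = Prod.fst '' {w : XS n × (H → ℕ) | FE s₀ H₁ w.1 w.2} := by
    ext x
    constructor
    · rintro ⟨f, hf⟩
      exact ⟨(x, f), hf, rfl⟩
    · rintro ⟨⟨x', f⟩, hf, rfl⟩
      exact ⟨f, hf⟩
  rw [e]
  refine meas_FE.image_of_measurable_injOn measurable_fst ?_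
  rintro ⟨x, f⟩ h3 ⟨x', f'⟩ h4 h5
  simp only at h5
  subst h5
  exact Prod.ext rfl (FE.unique hs h3 h4)

theorem hull_countable [Countable H] : Countable (DivisibleHull H) := by
  have hs : Function.Surjective fun p : H × ℕ+ => DivisibleHull.mk p.1 p.2 := by
    intro v
    induction v with
    | mk g s => exact ⟨(g, s), rfl⟩
  exact hs.countable

/-- The quotient of the divisible hull. -/
abbrev Cq (H : Type) [AddCommGroup H] [LinearOrder H] [IsOrderedAddMonoid H] : Type :=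
  DivisibleHull H ⧸ (ch (G := H)).range

/-- The quotient map. -/
noncomputable def pq (H : Type) [AddCommGroup H] [LinearOrder H] [IsOrderedAddMonoid H] :
    DivisibleHull H →+ Cq H := QuotientAddGroup.mk' _

theorem pq_ker (w : DivisibleHull H) : pq H w = 0 ↔ ∃ a, ch a = w := by
  unfold pq
  rw [QuotientAddGroup.mk'_apply, QuotientAddGroup.eq_zero_iff]
  exact Iff.rfl

/-- The subspace spanned by a subgroup. -/
def DD (H₁ : AddSubgroup H) : Submodule ℚ (DivisibleHull H) where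
  carrier := {w | ∃ N : ℕ, N ≠ 0 ∧ ∃ a ∈ H₁, N • w = ch a}
  zero_mem' := ⟨1, one_ne_zero, 0, H₁.zero_mem, by rw [one_nsmul, map_zero]⟩
  add_mem' := by
    rintro w w' ⟨N, hN, a, ha, h1⟩ ⟨M, hM, b, hb, h2⟩
    refine ⟨N * M, mul_ne_zero hN hM, M • a + N • b,
      H₁.add_mem (H₁.nsmul_mem ha M) (H₁.nsmul_mem hb N), ?_⟩
    rw [nsmul_add, map_add, map_nsmul, map_nsmul, ← h1, ← h2, ← mul_smul, ← mul_smul, mul_comm M N]
  smul_mem' := by
    rintro q w ⟨N, hN, a, ha, h1⟩
    refine ⟨q.den * N, mul_ne_zero q.den_ne_zero hN, q.num • a, H₁.zsmul_mem ha _, ?_⟩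
    rw [map_zsmul, ← h1, ← Nat.cast_smul_eq_nsmul ℚ, ← Int.cast_smul_eq_zsmul ℚ,
      ← Nat.cast_smul_eq_nsmul ℚ N, smul_smul, smul_smul]
    congr 1
    push_cast
    rw [mul_assoc, mul_comm (N : ℚ) q, ← mul_assoc, mul_comm (q.den : ℚ) q, Rat.mul_den_eq_num]

theorem ch_mem_DD {a : H} (ha : a ∈ H₁) : ch a ∈ DD H₁ :=
  ⟨1, one_ne_zero, a, ha, one_nsmul _⟩

theorem Sh.mem_of_DD (hs : Sh s₀ H₁) {a : H} (h : ch a ∈ DD H₁) : a ∈ H₁ := by
  obtain ⟨N, hN, b, hb, h1⟩ := h
  rw [← map_nsmul] at h1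
  have h2 := ch_inj h1
  refine hs.conv b hb a ?_
  rw [← h2, abs_nsmul]
  calc |a| = 1 • |a| := (one_nsmul _).symm
    _ ≤ N • |a| := nsmul_le_nsmul_left (abs_nonneg _) (Nat.one_le_iff_ne_zero.2 hN)

theorem ch_sum (c : Fin n → ℤ) :
    (ch (∑ i, c i • s₀ i) : DivisibleHull H) = ∑ i, c i • ch (s₀ i) := by
  rw [map_sum]
  exact Finset.sum_congr rfl fun i _ => map_zsmul _ _ _

theorem Sh.bs (hs : Sh s₀ H₁) : Bs (pq H) (fun i => ch (s₀ i)) (DD H₁) := by
  refine ⟨QuotientAddGroup.mk'_surjective _, ?_, ?_, ?_, ?_, ?_, ?_⟩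
  · intro w
    obtain ⟨N, hN, g, hg⟩ := ch_span w
    exact ⟨N, hN, (pq_ker _).2 ⟨g, hg.symm⟩⟩
  · exact fun i => (pq_ker _).2 ⟨_, rfl⟩
  · intro w
    obtain ⟨N, hN, g, hg⟩ := ch_span w
    obtain ⟨M, c, hM, h1⟩ := hs.fin g
    refine ⟨M * N, c, mul_ne_zero hM hN, ?_⟩
    rw [mul_smul, hg, ← map_nsmul, ← ch_sum, ← map_sub]
    exact ch_mem_DD h1
  · rintro w ⟨N, hN, a, ha, h1⟩ w' hw
    obtain ⟨M, hM, b, hb⟩ := ch_span w'
    refine ⟨N * M, mul_ne_zero hN hM, N • b, ?_, by rw [mul_smul, hb, map_nsmul]⟩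
    refine hs.conv (M • a) (H₁.nsmul_mem ha M) _ ?_
    rw [← ch_le, ch_abs, ch_abs, map_nsmul, map_nsmul, ← hb, ← h1, abs_nsmul, abs_nsmul,
      abs_nsmul, abs_nsmul, ← mul_smul, ← mul_smul, mul_comm N M]
    exact nsmul_le_nsmul_right hw _
  · rintro x ⟨N, hN, a, ha, h0⟩ y ⟨M, hM, b, hb, h0'⟩ hxy
    have h1 : (M * N) • x = ch (M • a) := by rw [mul_smul, h0, map_nsmul]
    have h2 : (M * N) • y = ch (N • b) := by rw [mul_comm, mul_smul, h0', map_nsmul]
    have hMN : M * N ≠ 0 := mul_ne_zero hM hN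
    have h3 : (M * N) • x < (M * N) • y := nsmul_lt_nsmul_right hMN hxy
    rw [h1, h2, ch_lt] at h3
    obtain ⟨K, c, hK, h4, h5⟩ := hs.sep _ (H₁.nsmul_mem ha M) _ (H₁.nsmul_mem hb N) h3
    refine ⟨K * (M * N), c, mul_ne_zero hK hMN, ?_, ?_⟩
    · rw [mul_smul, h1, ← map_nsmul, ← ch_sum, ch_le]
      exact h4
    · rw [mul_smul, h2, ← map_nsmul, ← ch_sum, ch_lt]
      exact h5
  · rintro w ⟨N, hN, a, ha, h1⟩
    obtain ⟨c, hc1, hc2⟩ := hs.cof a ha
    refine ⟨c, ?_, ?_⟩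
    · rw [← ch_sum]
      exact ch_mem_DD hc1
    · rw [← ch_sum]
      refine le_trans ?_ (ch_le.2 hc2)
      rw [ch_abs, ← h1, abs_nsmul]
      calc |w| = 1 • |w| := (one_nsmul _).symm
        _ ≤ N • |w| := nsmul_le_nsmul_left (abs_nonneg _) (Nat.one_le_iff_ne_zero.2 hN)

/-- The dichotomy over a fixed ordered group. -/
theorem fam_dich [Countable H] (hs : Sh s₀ H₁) (B : Set (XS n)) (hB : MeasurableSet B)
    (hBi : ∀ x ∈ B, ∀ x', XIso x x' → x' ∈ B) : XDich (B ∩ Kc s₀ H₁) := by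
  classical
  haveI := hull_countable (H := H)
  letI : MeasurableSpace (Cq H) := ⊤
  haveI : DiscreteMeasurableSpace (Cq H) := ⟨fun _ => trivial⟩
  haveI : Countable (Cq H) := (QuotientAddGroup.mk'_surjective (ch (G := H)).range).countable
  obtain ⟨cd, hcd⟩ := exists_injective_nat (DivisibleHull H)
  refine base_dich (cd := cd) hs.bs (B ∩ Kc s₀ H₁) (hB.inter (Kc_meas hs)) ?_ ?_
  · rintro x ⟨h1, h2⟩ x' h3
    exact ⟨hBi x h1 x' h3, Kc_inv x h2 x' h3⟩
  · rintro x ⟨-, h2⟩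
    obtain ⟨G, i1, i2, i3, e, ι, he, hι⟩ := mem_Kc.1 h2
    have hκ : ∀ w : (pq H).ker, ∃ a, ch a = (w : DivisibleHull H) := fun w => (pq_ker _).1 w.2
    choose κ hκ using hκ
    set ι' : (pq H).ker →+ G := AddMonoidHom.mk' (fun w => ι (κ w)) (fun w w' => by
      rw [← map_add]
      congr 1
      apply ch_inj
      rw [map_add, hκ, hκ, hκ, AddSubgroup.coe_add]) with hι'
    have hιc : ∀ (a : H) (w : (pq H).ker), (w : DivisibleHull H) = ch a → ι' w = ι a := by
      intro a w h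
      show ι (κ w) = ι a
      congr 1
      apply ch_inj
      rw [hκ, h]
    have hex : ∀ a : H, ∃ w : (pq H).ker, (w : DivisibleHull H) = ch a := fun a =>
      ⟨⟨ch a, (pq_ker _).2 ⟨a, rfl⟩⟩, rfl⟩
    refine cz_cov (ι := ι') hcd hs.bs ⟨?_, ?_, ?_, ?_⟩ e he.lt he.add ?_
    · intro w hw
      rw [hιc _ w (hκ w).symm]
      refine hι.pos _ (ch_lt.1 ?_)
      rw [map_zero, hκ]
      exact hw
    · intro g w hwD hg
      rw [hιc _ w (hκ w).symm] at hg
      obtain ⟨a', ha1, ha'⟩ := hι.conv g (κ w) (hs.mem_of_DD (by rw [hκ]; exact hwD)) hg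
      obtain ⟨w', hw'⟩ := hex a'
      exact ⟨w', by rw [hw']; exact ch_mem_DD ha1, by rw [hιc _ _ hw', ha']⟩
    · intro g N w hN hg
      rw [hιc _ w (hκ w).symm] at hg
      obtain ⟨a', ha'⟩ := hι.pure g N _ hN hg
      obtain ⟨w', hw'⟩ := hex a'
      exact ⟨w', by rw [hιc _ _ hw', ha']⟩
    · intro g N hN
      obtain ⟨g', a, h3⟩ := hι.div g N hN
      obtain ⟨w', hw'⟩ := hex a
      exact ⟨g', w', by rw [hιc _ _ hw', h3]⟩
    · intro i
      rw [hιc (s₀ i) _ rfl, hι.s]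

end Pool.Agent.Y566.ZM
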