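import Pool.Agent.Y566.ZM.Asm

set_option autoImplicit false
set_option linter.unusedSectionVars false

/-! Tame ordered groups. -/

namespace Pool.Agent.Y566.ZM

open Pool.Agent.Y566.ZG

open Set

variable {G : Type} [AddCommGroup G] [LinearOrder G] [IsOrderedAddMonoid G]

/-- Ordered groups which are divisible modulo a subgroup of finite rank over a convex archimedean
subgroup. -/
def Tm (G : Type) [AddCommGroup G] [LinearOrder G] : Prop :=
  ∃ A S : AddSubgroup G, A ≤ S ∧ (∀ a b : G, |a| ≤ |b| → b ∈ A → a ∈ A) ∧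
    (∀ a b : G, a ∈ A → b ∈ A → 0 < a → ∃ N : ℕ, b ≤ N • a) ∧
    (∃ (n : ℕ) (t : Fin n → G), ∀ h ∈ S, ∃ (N : ℕ) (c : Fin n → ℤ),
        N ≠ 0 ∧ N • h - ∑ i, c i • t i ∈ A) ∧
    ∀ (g : G) (N : ℕ), N ≠ 0 → ∃ g' : G, g - N • g' ∈ S

theorem sep_arch {H : AddSubgroup G} (harch : ∀ a b : G, a ∈ H → b ∈ H → 0 < a → ∃ N : ℕ, b ≤ N • a)
    {u : G} (hu : u ∈ H) (hu0 : 0 < u) {a b : G} (ha : a ∈ H) (hb : b ∈ H) (hab : a < b) :
    ∃ (N : ℕ) (c : ℤ), N ≠ 0 ∧ N • a ≤ c • u ∧ c • u < N • b := by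
  haveI : Archimedean H := by
    constructor
    intro x y hy
    obtain ⟨N, hN⟩ := harch y.1 x.1 y.2 x.2 hy
    exact ⟨N, hN⟩
  obtain ⟨N, hN⟩ := harch (b - a) u (H.sub_mem hb ha) hu (sub_pos.2 hab)
  have hN1 : u < (N + 1) • (b - a) := by
    rw [succ_nsmul]
    exact hN.trans_lt (lt_add_of_pos_right _ (sub_pos.2 hab))
  obtain ⟨k, ⟨h1, h2⟩, -⟩ := existsUnique_zsmul_near_of_pos (a := (⟨u, hu⟩ : H)) hu0
    (-((N + 1) • (⟨a, ha⟩ : H)))
  have h1' : k • u ≤ -((N + 1) • a) := h1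
  have h2' : -((N + 1) • a) < (k + 1) • u := h2
  refine ⟨N + 1, -k, Nat.succ_ne_zero N, ?_, ?_⟩
  · rw [neg_zsmul]
    exact le_neg_of_le_neg h1'
  · rw [neg_zsmul]
    rw [add_zsmul, one_zsmul] at h2'
    rw [nsmul_sub] at hN1
    have h3 := add_lt_add h2' hN1
    have h4 : -((N + 1) • a) + u < k • u + u + ((N + 1) • b - (N + 1) • a) := h3
    have h5 : -(k • u) = (-((N + 1) • a) + u) + ((N + 1) • a - u - k • u) := by abel
    have h6 : (N + 1) • b = (k • u + u + ((N + 1) • b - (N + 1) • a)) +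
        ((N + 1) • a - u - k • u) := by abel
    rw [h5, h6]
    exact (add_lt_add_iff_right _).2 h4

theorem Tm.gd (h : Tm G) : ∃ (n : ℕ) (s : Fin (n + 1) → G), Gd s := by
  obtain ⟨A, S, hAS, hconv, harch, ⟨n, t, hfin⟩, hdiv⟩ := h
  have key : ∃ u ∈ A, (∀ g, g ∈ Hu u ↔ g ∈ A) ∧ ∀ a ∈ A, ∀ b ∈ A, a < b →
      ∃ (N : ℕ) (c : ℤ), N ≠ 0 ∧ N • a ≤ c • u ∧ c • u < N • b := by
    by_cases hH : ∃ u ∈ A, 0 < u
    · obtain ⟨u, hu, hu0⟩ := hH
      refine ⟨u, hu, fun g => ⟨?_, ?_⟩, fun a ha b hb hab => sep_arch harch hu hu0 ha hb hab⟩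
      · rintro ⟨N, hN⟩
        refine hconv g (N • |u|) (hN.trans (le_abs_self _)) (A.nsmul_mem ?_ N)
        exact hconv _ _ (by rw [abs_abs]) hu
      · intro hg
        obtain ⟨M, hM⟩ := harch u |g| hu (hconv _ _ (by rw [abs_abs]) hg) hu0
        exact ⟨M, by rw [abs_of_pos hu0]; exact hM⟩
    · have h0 : ∀ g ∈ A, g = 0 := by
        intro g hg
        by_contra hne
        exact hH ⟨|g|, hconv _ _ (by rw [abs_abs]) hg, abs_pos.2 hne⟩
      refine ⟨0, A.zero_mem, fun g => ⟨?_, ?_⟩, ?_⟩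
      · rintro ⟨N, hN⟩
        rw [abs_zero, nsmul_zero] at hN
        rw [abs_nonpos_iff.1 hN]
        exact A.zero_mem
      · intro hg
        rw [h0 g hg]
        exact (Hu _).zero_mem
      · intro a ha b hb hab
        rw [h0 a ha, h0 b hb] at hab
        exact absurd hab (lt_irrefl _)
  obtain ⟨u, hu, hu1, hu2⟩ := key
  refine ⟨n, Fin.cons u t, ?_, ?_⟩
  · intro g N hN
    obtain ⟨g', hg'⟩ := hdiv g N hN
    refine ⟨g', g - N • g', ?_, by abel⟩
    obtain ⟨M, c, hM, h1⟩ := hfin _ hg'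
    refine ⟨M, Fin.cons 0 c, hM, ?_⟩
    rw [Fin.sum_univ_succ]
    simp only [Fin.cons_zero, Fin.cons_succ, zero_smul, zero_add]
    exact (hu1 _).2 h1
  · intro a ha b hb hab
    have ha' := (hu1 a).1 ha
    have hb' := (hu1 b).1 hb
    obtain ⟨N, c, hN, h1, h2⟩ := hu2 a ha' b hb' hab
    refine ⟨N, Pi.single 0 c, hN, ?_, ?_⟩
    · rw [sum_single]
      exact h1
    · rw [sum_single]
      exact h2

/-- Groups which are generated modulo each number by the same finite tuple. -/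
theorem tm_fin {n : ℕ} {t : Fin n → G}
    (hd : ∀ (g : G) (N : ℕ), N ≠ 0 → ∃ (g' : G) (c : Fin n → ℤ), g = N • g' + ∑ i, c i • t i) :
    Tm G := by
  refine ⟨⊥, AddSubgroup.closure (range t), bot_le, ?_, ?_, ⟨n, t, ?_⟩, ?_⟩
  · intro a b hab hb
    rw [AddSubgroup.mem_bot] at hb ⊢
    rw [hb, abs_zero] at hab
    exact abs_nonpos_iff.1 hab
  · intro a b ha hb ha0
    rw [AddSubgroup.mem_bot] at ha
    rw [ha] at ha0
    exact absurd ha0 (lt_irrefl _)
  · intro h hh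
    induction hh using AddSubgroup.closure_induction with
    | mem x hx =>
      obtain ⟨i, rfl⟩ := hx
      refine ⟨1, Pi.single i 1, one_ne_zero, ?_⟩
      rw [Finset.sum_eq_single i]
      · rw [Pi.single_eq_same, one_smul, one_smul, sub_self]
        exact AddSubgroup.zero_mem _
      · intro j _ hj
        rw [Pi.single_eq_of_ne hj, zero_smul]
      · intro h
        exact absurd (Finset.mem_univ i) h
    | zero => exact ⟨1, 0, one_ne_zero, by simp⟩
    | add x y _ _ h1 h2 =>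
      obtain ⟨N, c, hN, h1⟩ := h1
      obtain ⟨M, d, hM, h2⟩ := h2
      rw [AddSubgroup.mem_bot, sub_eq_zero] at h1 h2
      refine ⟨N * M, fun i => M * c i + N * d i, mul_ne_zero hN hM, ?_⟩
      rw [AddSubgroup.mem_bot, sub_eq_zero]
      simp only [add_smul, mul_smul, Finset.sum_add_distrib, nsmul_add, natCast_zsmul,
        ← Finset.smul_sum]
      rw [smul_comm N M x, h1, h2]
    | neg x _ h1 =>
      obtain ⟨N, c, hN, h1⟩ := h1
      rw [AddSubgroup.mem_bot, sub_eq_zero] at h1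
      refine ⟨N, fun i => - c i, hN, ?_⟩
      rw [AddSubgroup.mem_bot, sub_eq_zero]
      simp only [neg_smul, Finset.sum_neg_distrib, neg_nsmul]
      rw [h1]
  · intro g N hN
    obtain ⟨g', c, h1⟩ := hd g N hN
    refine ⟨g', ?_⟩
    rw [h1, add_sub_cancel_left]
    exact AddSubgroup.sum_mem _ fun i _ =>
      AddSubgroup.zsmul_mem _ (AddSubgroup.subset_closure (mem_range_self i)) _

end Pool.Agent.Y566.ZM
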